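import Mathlib

set_option autoImplicit false

/-!
# Ramsey numbers of a triangle against graphs of maximum degree three: basic lemmas

`Good G H A φ` says that `φ` places the vertices of `A` injectively at vertices (hosts) of `H`
such that no edge of `G` inside `A` becomes an edge of `H`.
-/

namespace Pool.Agent.H44.Cub

open Finset

/-- The neighbours of `v` inside `A`. -/
def nb {X : Type*} (G : SimpleGraph X) [DecidableRel G.Adj] (A : Finset X) (v : X) : Finset X :=
  A.filter (fun u => G.Adj v u)

/-- `I` is an independent set of `H`. -/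
def Ind {X : Type*} (H : SimpleGraph X) (I : Finset X) : Prop :=
  ∀ x ∈ I, ∀ y ∈ I, ¬ H.Adj x y

/-- `H` has no triangle. -/
def TriFree {X : Type*} (H : SimpleGraph X) : Prop :=
  ∀ a b c, H.Adj a b → H.Adj b c → ¬ H.Adj a c

/-- `φ` is injective on `A` and maps no edge of `G` inside `A` to an edge of `H`. -/
def Good {V W : Type*} (G : SimpleGraph V) (H : SimpleGraph W) (A : Finset V) (φ : V → W) : Prop :=
  (∀ u ∈ A, ∀ v ∈ A, φ u = φ v → u = v) ∧ ∀ u ∈ A, ∀ v ∈ A, G.Adj u v → ¬ H.Adj (φ u) (φ v)

section nb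

variable {X : Type*} {G : SimpleGraph X} [DecidableRel G.Adj]

theorem mem_nb {A : Finset X} {v u : X} : u ∈ nb G A v ↔ u ∈ A ∧ G.Adj v u := by
  simp [nb]

theorem nb_subset {A : Finset X} {v : X} : nb G A v ⊆ A := Finset.filter_subset _ _

theorem nb_mono {A B : Finset X} {v : X} (h : A ⊆ B) : nb G A v ⊆ nb G B v :=
  Finset.filter_subset_filter _ h

theorem nb_ind (tri : TriFree G) (U : Finset X) (y : X) : Ind G (nb G U y) := by
  intro x hx z hz hxz
  rw [mem_nb] at hx hz
  exact tri y x z hx.2 hxz hz.2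

/-- Double counting of the edges between two sets. -/
theorem sum_nb_comm (A B : Finset X) :
    ∑ y ∈ A, (nb G B y).card = ∑ i ∈ B, (nb G A i).card := by
  simp only [nb, Finset.card_filter]
  rw [Finset.sum_comm]
  refine Finset.sum_congr rfl fun i _ => Finset.sum_congr rfl fun y _ => ?_
  simp only [SimpleGraph.adj_comm]

end nb

section good

variable {V W : Type*} [DecidableEq V] [DecidableEq W] {G : SimpleGraph V} {H : SimpleGraph W}

omit [DecidableEq V] [DecidableEq W] in
theorem Good.mono {A B : Finset V} {φ : V → W} (h : Good G H B φ) (hAB : A ⊆ B) :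
    Good G H A φ :=
  ⟨fun u hu v hv => h.1 u (hAB hu) v (hAB hv), fun u hu v hv => h.2 u (hAB hu) v (hAB hv)⟩

omit [DecidableEq V] [DecidableEq W] in
theorem Good.congr {A : Finset V} {φ ψ : V → W} (h : Good G H A φ) (he : ∀ v ∈ A, ψ v = φ v) :
    Good G H A ψ := by
  refine ⟨fun u hu v hv => ?_, fun u hu v hv => ?_⟩
  · rw [he u hu, he v hv]
    exact h.1 u hu v hv
  · rw [he u hu, he v hv]
    exact h.2 u hu v hv

omit [DecidableEq W] in
theorem Good.insert {A : Finset V} {φ : V → W} {v : V} {y : W} (h : Good G H A φ) (hv : v ∉ A)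
    (hy : ∀ u ∈ A, φ u ≠ y) (hadj : ∀ u ∈ A, G.Adj v u → ¬ H.Adj (φ u) y) :
    Good G H (insert v A) (Function.update φ v y) := by
  have hne : ∀ u ∈ A, u ≠ v := fun u hu he => hv (he ▸ hu)
  have hup : ∀ u ∈ A, Function.update φ v y u = φ u := fun u hu =>
    Function.update_of_ne (hne u hu) _ _
  have hvv : Function.update φ v y v = y := Function.update_self _ _ _
  refine ⟨fun u hu x hx => ?_, fun u hu x hx => ?_⟩
  · rcases Finset.mem_insert.1 hu with hu1 | hu1
    · rcases Finset.mem_insert.1 hx with hx1 | hx1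
      · intro _
        rw [hu1, hx1]
      · intro he
        rw [hu1, hvv, hup x hx1] at he
        exact absurd he.symm (hy x hx1)
    · rcases Finset.mem_insert.1 hx with hx1 | hx1
      · intro he
        rw [hx1, hvv, hup u hu1] at he
        exact absurd he (hy u hu1)
      · rw [hup u hu1, hup x hx1]
        exact h.1 u hu1 x hx1
  · rcases Finset.mem_insert.1 hu with hu1 | hu1
    · rcases Finset.mem_insert.1 hx with hx1 | hx1
      · intro he
        rw [hu1, hx1] at he
        exact absurd he (G.loopless.irrefl _)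
      · intro he
        rw [hu1, hvv, hup x hx1]
        rw [hu1] at he
        exact fun hh => hadj x hx1 he hh.symm
    · rcases Finset.mem_insert.1 hx with hx1 | hx1
      · intro he
        rw [hx1, hvv, hup u hu1]
        rw [hx1] at he
        exact hadj u hu1 he.symm
      · rw [hup u hu1, hup x hx1]
        exact h.2 u hu1 x hx1

omit [DecidableEq W] in
theorem Good.union {S T : Finset V} {ψ φ : V → W} (hS : Good G H S ψ) (hT : Good G H T φ)
    (hdis : ∀ t ∈ T, t ∉ S)
    (hne : ∀ s ∈ S, ∀ t ∈ T, ψ s ≠ φ t)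
    (hadj : ∀ s ∈ S, ∀ t ∈ T, G.Adj s t → ¬ H.Adj (ψ s) (φ t)) :
    Good G H (S ∪ T) (fun v => if v ∈ S then ψ v else φ v) := by
  have e1 : ∀ s ∈ S, (fun v => if v ∈ S then ψ v else φ v) s = ψ s := by
    intro s hs
    simp [hs]
  have e2 : ∀ t ∈ T, (fun v => if v ∈ S then ψ v else φ v) t = φ t := by
    intro t ht
    simp [hdis t ht]
  refine ⟨fun u hu x hx => ?_, fun u hu x hx => ?_⟩
  · rcases Finset.mem_union.1 hu with hu | hu <;> rcases Finset.mem_union.1 hx with hx | hx
    · rw [e1 u hu, e1 x hx]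
      exact hS.1 u hu x hx
    · rw [e1 u hu, e2 x hx]
      exact fun he => absurd he (hne u hu x hx)
    · rw [e2 u hu, e1 x hx]
      exact fun he => absurd he.symm (hne x hx u hu)
    · rw [e2 u hu, e2 x hx]
      exact hT.1 u hu x hx
  · rcases Finset.mem_union.1 hu with hu | hu <;> rcases Finset.mem_union.1 hx with hx | hx
    · rw [e1 u hu, e1 x hx]
      exact hS.2 u hu x hx
    · rw [e1 u hu, e2 x hx]
      exact hadj u hu x hx
    · rw [e2 u hu, e1 x hx]
      exact fun he hh => hadj x hx u hu he.symm hh.symm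
    · rw [e2 u hu, e2 x hx]
      exact hT.2 u hu x hx

omit [DecidableEq W] in
theorem upd_of_mem {B : Finset V} {φ : V → W} {v x : V} {y : W} (hv : v ∉ B) (hx : x ∈ B) :
    Function.update φ v y x = φ x := by
  have hne : x ≠ v := fun he => hv (he ▸ hx)
  exact Function.update_of_ne hne _ _

omit [DecidableEq W] in
theorem upd_self {φ : V → W} {v : V} {y : W} : Function.update φ v y v = y :=
  Function.update_self _ _ _

/-- Greedy placement of one more vertex. -/
theorem place [DecidableRel G.Adj] [DecidableRel H.Adj] {B : Finset V} {φ : V → W} {v : V}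
    {X : Finset W} (h : Good G H B φ) (hv : v ∉ B)
    (hX : ((B.image φ) ∩ X).card + ∑ u ∈ nb G B v, (nb H X (φ u)).card < X.card) :
    ∃ y ∈ X, Good G H (insert v B) (Function.update φ v y) := by
  have hcard : (((B.image φ) ∩ X) ∪ (nb G B v).biUnion (fun u => nb H X (φ u))).card < X.card := by
    refine lt_of_le_of_lt (Finset.card_union_le _ _) (lt_of_le_of_lt ?_ hX)
    exact Nat.add_le_add_left Finset.card_biUnion_le _
  obtain ⟨y, hy, hyn⟩ := Finset.exists_mem_notMem_of_card_lt_card hcard
  rw [Finset.mem_union, not_or] at hyn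
  refine ⟨y, hy, h.insert hv ?_ ?_⟩
  · intro u hu he
    exact hyn.1 (Finset.mem_inter.2 ⟨Finset.mem_image.2 ⟨u, hu, he⟩, hy⟩)
  · intro u hu huv hh
    exact hyn.2 (Finset.mem_biUnion.2 ⟨u, mem_nb.2 ⟨hu, huv⟩, mem_nb.2 ⟨hy, hh⟩⟩)

omit [DecidableEq V] [DecidableEq W] in
theorem exists_injOn [Nonempty W] {S : Finset V} {I : Finset W} (hc : S.card ≤ I.card) :
    ∃ ψ : V → W, (∀ u ∈ S, ∀ v ∈ S, ψ u = ψ v → u = v) ∧ ∀ v ∈ S, ψ v ∈ I := by
  classical
  have h : Nonempty ({x // x ∈ S} ↪ {x // x ∈ I}) := by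
    apply Function.Embedding.nonempty_of_card_le
    simpa using hc
  obtain ⟨e⟩ := h
  refine ⟨fun v => if h : v ∈ S then (e ⟨v, h⟩ : W) else Classical.arbitrary W, ?_, ?_⟩
  · intro u hu v hv he
    simp only [hu, hv, dif_pos] at he
    have := e.injective (Subtype.ext he)
    exact congrArg Subtype.val this
  · intro v hv
    simp only [hv, dif_pos]
    exact (e ⟨v, hv⟩).2

omit [DecidableEq V] [DecidableEq W] in
theorem good_of_ind [Nonempty W] {S : Finset V} {I : Finset W} (hI : Ind H I)
    (hc : S.card ≤ I.card) : ∃ ψ : V → W, Good G H S ψ ∧ ∀ v ∈ S, ψ v ∈ I := by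
  obtain ⟨ψ, h1, h2⟩ := exists_injOn hc
  exact ⟨ψ, ⟨h1, fun u hu v hv _ => hI _ (h2 u hu) _ (h2 v hv)⟩, h2⟩

omit [DecidableEq V] in
theorem hall_on [Nonempty W] (R : Finset V) (t : V → Finset W)
    (h : ∀ Q ⊆ R, Q.card ≤ (Q.biUnion t).card) :
    ∃ ψ : V → W, (∀ u ∈ R, ∀ v ∈ R, ψ u = ψ v → u = v) ∧ ∀ v ∈ R, ψ v ∈ t v := by
  classical
  have key := (Finset.all_card_le_biUnion_card_iff_exists_injective
    (fun x : {x // x ∈ R} => t x)).1 ?_
  · obtain ⟨f, hf, hft⟩ := key
    refine ⟨fun v => if h : v ∈ R then f ⟨v, h⟩ else Classical.arbitrary W, ?_, ?_⟩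
    · intro u hu v hv he
      simp only [hu, hv, dif_pos] at he
      exact congrArg Subtype.val (hf he)
    · intro v hv
      simp only [hv, dif_pos]
      exact hft ⟨v, hv⟩
  · intro s
    have h1 : (s.image Subtype.val).card = s.card :=
      Finset.card_image_of_injective _ Subtype.val_injective
    have h2 : (s.image Subtype.val) ⊆ R := by
      intro x hx
      obtain ⟨y, _, rfl⟩ := Finset.mem_image.1 hx
      exact y.2
    have h3 := h _ h2
    rw [h1] at h3
    refine h3.trans (le_of_eq ?_)
    rw [Finset.image_biUnion]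

end good

/-- `R(3, n) ≤ n (n + 1) / 2`. -/
theorem exists_ind {W : Type*} [DecidableEq W] {H : SimpleGraph W} [DecidableRel H.Adj]
    (tri : TriFree H) :
    ∀ (n : ℕ) (U : Finset W), n * (n + 1) / 2 ≤ U.card → ∃ I ⊆ U, Ind H I ∧ I.card = n := by
  intro n
  induction n with
  | zero =>
    intro U _
    exact ⟨∅, Finset.empty_subset _, fun x hx => absurd hx (Finset.notMem_empty x), rfl⟩
  | succ n ih =>
    intro U hU
    have hstep : (n + 1) * (n + 1 + 1) / 2 = n * (n + 1) / 2 + (n + 1) := by
      have : (n + 1) * (n + 1 + 1) = n * (n + 1) + 2 * (n + 1) := by ring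
      rw [this, Nat.add_mul_div_left _ _ (by norm_num)]
    rw [hstep] at hU
    have hne : U.Nonempty := by
      rw [← Finset.card_pos]
      omega
    obtain ⟨y, hy⟩ := hne
    by_cases hd : n + 1 ≤ (nb H U y).card
    · obtain ⟨I, hI, hc⟩ := Finset.exists_subset_card_eq hd
      exact ⟨I, hI.trans nb_subset, fun x hx z hz => nb_ind tri U y x (hI hx) z (hI hz), hc⟩
    · have hsub : insert y (nb H U y) ⊆ U := by
        intro x hx
        rcases Finset.mem_insert.1 hx with rfl | hx
        · exact hy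
        · exact nb_subset hx
      have hc1 : (insert y (nb H U y)).card ≤ n + 1 := by
        refine (Finset.card_insert_le _ _).trans ?_
        omega
      have hc2 : n * (n + 1) / 2 ≤ (U \ insert y (nb H U y)).card := by
        rw [Finset.card_sdiff_of_subset hsub]
        omega
      obtain ⟨I, hI, hind, hcI⟩ := ih _ hc2
      have hyI : y ∉ I := by
        intro hyI
        have := (Finset.mem_sdiff.1 (hI hyI)).2
        exact this (Finset.mem_insert_self _ _)
      have hnadj : ∀ x ∈ I, ¬ H.Adj y x := by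
        intro x hx hadj
        have hx' := Finset.mem_sdiff.1 (hI hx)
        exact hx'.2 (Finset.mem_insert_of_mem (mem_nb.2 ⟨hx'.1, hadj⟩))
      refine ⟨insert y I, ?_, ?_, ?_⟩
      · intro x hx
        rcases Finset.mem_insert.1 hx with rfl | hx
        · exact hy
        · exact (Finset.mem_sdiff.1 (hI hx)).1
      · intro x hx z hz
        rcases Finset.mem_insert.1 hx with hx1 | hx1
        · rcases Finset.mem_insert.1 hz with hz1 | hz1
          · rw [hx1, hz1]
            exact H.loopless.irrefl _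
          · rw [hx1]
            exact hnadj z hz1
        · rcases Finset.mem_insert.1 hz with hz1 | hz1
          · rw [hz1]
            exact fun h => hnadj x hx1 h.symm
          · exact hind x hx1 z hz1
      · rw [Finset.card_insert_of_notMem hyI, hcI]

/-- The `b` elements of `Y` with the largest values of `f`. -/
theorem exists_top {W : Type*} [DecidableEq W] (f : W → ℕ) (Y : Finset W) :
    ∀ b : ℕ, b ≤ Y.card → ∃ B ⊆ Y, B.card = b ∧ ∀ x ∈ B, ∀ y ∈ Y \ B, f y ≤ f x := by
  intro b
  induction b with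
  | zero =>
    intro _
    exact ⟨∅, Finset.empty_subset _, rfl, fun x hx => absurd hx (Finset.notMem_empty x)⟩
  | succ b ih =>
    intro hb
    obtain ⟨B, hB, hc, hmax⟩ := ih (by omega)
    have hne : (Y \ B).Nonempty := by
      rw [← Finset.card_pos, Finset.card_sdiff_of_subset hB]
      omega
    obtain ⟨x, hx, hxmax⟩ := Finset.exists_max_image (Y \ B) f hne
    have hx' := Finset.mem_sdiff.1 hx
    refine ⟨insert x B, ?_, ?_, ?_⟩
    · intro z hz
      rcases Finset.mem_insert.1 hz with rfl | hz
      · exact hx'.1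
      · exact hB hz
    · rw [Finset.card_insert_of_notMem hx'.2, hc]
    · intro z hz y hy
      have hy' := Finset.mem_sdiff.1 hy
      have hyB : y ∈ Y \ B :=
        Finset.mem_sdiff.2 ⟨hy'.1, fun h => hy'.2 (Finset.mem_insert_of_mem h)⟩
      rcases Finset.mem_insert.1 hz with rfl | hz
      · exact hxmax y hyB
      · exact hmax z hz y hyB

end Pool.Agent.H44.Cub
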