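import Pool.Agent.H44.Cub.StepD

set_option autoImplicit false
set_option linter.unusedSectionVars false

/-!
# The remaining vertices go into the independent set
-/

namespace Pool.Agent.H44.Cub

open Finset

variable {V W : Type*} [DecidableEq V] [DecidableEq W] {G : SimpleGraph V} {H : SimpleGraph W}
  [DecidableRel G.Adj] [DecidableRel H.Adj]

variable {A : Finset V} {U I B : Finset W} {T₀ : Finset V} {φ₀ : V → W} {a m β Δ : ℕ}

variable {T C : Finset V} {φ : V → W}

/-- The hosts in `I` allowed for `r`. -/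
def allowed (G : SimpleGraph V) (H : SimpleGraph W) [DecidableRel G.Adj] [DecidableRel H.Adj]
    (I : Finset W) (T C : Finset V) (φ : V → W) (r : V) : Finset W :=
  (I \ C.image φ) \ (nb G T r).biUnion (fun t => nb H I (φ t))

theorem Outcome.hall (S : Setup G H A U I B T₀ φ₀ a m β Δ)
    (inner : T₀.card = 1 ∨ ∀ t ∈ T₀, ∃ u ∈ T₀, G.Adj t u)
    (hcase : (m = 1 ∧ 3 * a + 3 ≤ 2 * β) ∨ (2 ≤ m ∧ 3 * m + 2 ≤ a) ∨
        (a = 6 ∧ m = 2 ∧ β = 11) ∨ (a = 7 ∧ m = 2 ∧ β = 13) ∨ (a = 9 ∧ m = 3 ∧ β = 15) ∨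
        (a = 10 ∧ m = 3 ∧ β = 17))
    (o : Outcome G H A U I T₀ φ₀ m T C φ) :
    ∀ Q ⊆ A \ (C ∪ T), Q.card ≤ (Q.biUnion (allowed G H I T C φ)).card := by
  intro Q hQ
  have hdis : Disjoint C T := by
    rw [Finset.disjoint_left]
    intro x hx hx'
    exact (Finset.mem_sdiff.1 (o.CA hx)).2 hx'
  have hCTA : C ∪ T ⊆ A := Finset.union_subset (o.CA.trans Finset.sdiff_subset) o.TA
  have hcardR : (A \ (C ∪ T)).card + C.card ≤ a := by
    have h1 := Finset.card_le_card hCTA
    rw [Finset.card_sdiff_of_subset hCTA, Finset.card_union_of_disjoint hdis, S.cardA]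
    rw [Finset.card_union_of_disjoint hdis, S.cardA] at h1
    have h2 := Finset.card_le_card o.T0T
    rw [S.cardT0] at h2
    omega
  have hIC : a ≤ (I \ C.image φ).card + C.card := by
    have h1 := Finset.le_card_sdiff (C.image φ) I
    have h2 : (C.image φ).card ≤ C.card := Finset.card_image_le
    rw [S.cardI] at h1
    omega
  have hQR := Finset.card_le_card hQ
  by_cases h0 : ∃ r ∈ Q, nb G T r = ∅
  · obtain ⟨r, hr, hr0⟩ := h0
    have h1 : allowed G H I T C φ r = I \ C.image φ := by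
      unfold allowed
      rw [hr0, Finset.biUnion_empty, Finset.sdiff_empty]
    have h2 : (allowed G H I T C φ r).card ≤ (Q.biUnion (allowed G H I T C φ)).card :=
      Finset.card_le_card (Finset.subset_biUnion_of_mem (allowed G H I T C φ) hr)
    rw [h1] at h2
    omega
  · push Not at h0
    rcases Q.eq_empty_or_nonempty with hQ0 | hQne
    · rw [hQ0]
      exact Nat.zero_le _
    have hnT : ∀ r ∈ Q, ∃ t ∈ T₀, nb G T r = {t} := by
      intro r hr
      obtain ⟨t, ht⟩ := h0 r hr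
      obtain ⟨h1, h2⟩ := o.oth r (hQ hr)
      exact ⟨t, h1 ht, Finset.eq_singleton_iff_unique_mem.2 ⟨ht, fun x hx =>
        Finset.card_le_one.1 h2 x hx t ht⟩⟩
    have hqn : Q.card ≤ ∑ v ∈ A \ (C ∪ T), (nb G T v).card := by
      calc Q.card = ∑ _v ∈ Q, 1 := by rw [Finset.sum_const, smul_eq_mul, Nat.mul_one]
        _ ≤ ∑ v ∈ Q, (nb G T v).card := by
            refine Finset.sum_le_sum fun v hv => ?_
            obtain ⟨t, _, ht⟩ := hnT v hv
            rw [ht, Finset.card_singleton]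
        _ ≤ _ := Finset.sum_le_sum_of_subset hQ
    set P := T₀.filter (fun t => (nb G Q t).Nonempty) with hP
    have hPT : P ⊆ T₀ := Finset.filter_subset _ _
    have hQP : Q ⊆ P.biUnion (fun t => nb G Q t) := by
      intro r hr
      obtain ⟨t, ht, hrt⟩ := hnT r hr
      have h1 : t ∈ nb G T r := by
        rw [hrt]; exact Finset.mem_singleton_self t
      have h2 : r ∈ nb G Q t := mem_nb.2 ⟨hr, (mem_nb.1 h1).2.symm⟩
      exact Finset.mem_biUnion.2 ⟨t, Finset.mem_filter.2 ⟨ht, ⟨r, h2⟩⟩, h2⟩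
    have hPne : P.Nonempty := by
      obtain ⟨r, hr⟩ := hQne
      obtain ⟨t, ht, _⟩ := Finset.mem_biUnion.1 (hQP hr)
      exact ⟨t, ht⟩
    have hQsum : Q.card ≤ ∑ t ∈ P, (nb G Q t).card :=
      (Finset.card_le_card hQP).trans Finset.card_biUnion_le
    have hQT : ∀ u ∈ T₀, u ∉ Q := fun u hu h =>
      (Finset.mem_sdiff.1 (hQ h)).2 (Finset.mem_union_right _ (o.T0T hu))
    have hqp : Q.card ≤ 2 * P.card ∨ (m = 1 ∧ Q.card ≤ 3) := by
      rcases inner with h1 | h1
      · right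
        rw [S.cardT0] at h1
        refine ⟨h1, ?_⟩
        have h2 : P.card ≤ 1 := by
          have := Finset.card_le_card hPT
          rw [S.cardT0, h1] at this
          exact this
        calc Q.card ≤ ∑ t ∈ P, (nb G Q t).card := hQsum
          _ ≤ ∑ _t ∈ P, 3 := Finset.sum_le_sum fun t _ => S.deg t Q
          _ = P.card * 3 := by rw [Finset.sum_const, smul_eq_mul]
          _ ≤ 3 := by omega
      · left
        calc Q.card ≤ ∑ t ∈ P, (nb G Q t).card := hQsum
          _ ≤ ∑ _t ∈ P, 2 := by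
              refine Finset.sum_le_sum fun t ht => ?_
              obtain ⟨u, hu, htu⟩ := h1 t (hPT ht)
              have h2 : u ∉ nb G Q t := fun h => hQT u hu (nb_subset h)
              have h3 : insert u (nb G Q t) ⊆ nb G A t := by
                intro x hx
                rcases Finset.mem_insert.1 hx with h | h
                · rw [h]
                  exact mem_nb.2 ⟨S.T0A hu, htu⟩
                · exact nb_mono (hQ.trans Finset.sdiff_subset) h
              have h4 := (Finset.card_le_card h3).trans (S.deg t A)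
              rw [Finset.card_insert_of_notMem h2] at h4
              omega
          _ = P.card * 2 := by rw [Finset.sum_const, smul_eq_mul]
          _ = 2 * P.card := Nat.mul_comm _ _
    obtain ⟨t₁, ht₁, ht₁min⟩ :=
      Finset.exists_min_image P (fun t => (nb H I (φ₀ t)).card) hPne
    have hrank := S.rank hPT hPne ht₁min
    have hfin := num_hall S.ha S.ha4 S.hβ hcase o.cnt hqn hqp (Finset.card_pos.2 hPne) hrank
    obtain ⟨r, hr⟩ := (Finset.mem_filter.1 ht₁).2
    have hrQ : r ∈ Q := nb_subset hr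
    obtain ⟨t, ht, hrt⟩ := hnT r hrQ
    have htt : t = t₁ := by
      have : t₁ ∈ nb G T r := mem_nb.2 ⟨o.T0T (hPT ht₁), (mem_nb.1 hr).2.symm⟩
      rw [hrt] at this
      exact (Finset.mem_singleton.1 this).symm
    subst htt
    have h1 : allowed G H I T C φ r = (I \ C.image φ) \ nb H I (φ₀ t) := by
      unfold allowed
      rw [hrt, Finset.singleton_biUnion, o.ag t ht]
    have h2 : (allowed G H I T C φ r).card ≤ (Q.biUnion (allowed G H I T C φ)).card :=
      Finset.card_le_card (Finset.subset_biUnion_of_mem (allowed G H I T C φ) hrQ)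
    have h3 := Finset.le_card_sdiff (nb H I (φ₀ t)) (I \ C.image φ)
    rw [h1] at h2
    omega

theorem Outcome.finish [Nonempty W] (S : Setup G H A U I B T₀ φ₀ a m β Δ)
    (inner : T₀.card = 1 ∨ ∀ t ∈ T₀, ∃ u ∈ T₀, G.Adj t u)
    (hcase : (m = 1 ∧ 3 * a + 3 ≤ 2 * β) ∨ (2 ≤ m ∧ 3 * m + 2 ≤ a) ∨
        (a = 6 ∧ m = 2 ∧ β = 11) ∨ (a = 7 ∧ m = 2 ∧ β = 13) ∨ (a = 9 ∧ m = 3 ∧ β = 15) ∨
        (a = 10 ∧ m = 3 ∧ β = 17))
    (o : Outcome G H A U I T₀ φ₀ m T C φ) :
    ∃ φ' : V → W, Good G H A φ' ∧ ∀ v ∈ A, φ' v ∈ U := by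
  obtain ⟨ψ, hψ1, hψ2⟩ := hall_on (A \ (C ∪ T)) (allowed G H I T C φ) (o.hall S inner hcase)
  have hψ3 : ∀ r ∈ A \ (C ∪ T), ψ r ∈ I ∧ (∀ c ∈ C, φ c ≠ ψ r) ∧
      ∀ t ∈ nb G T r, ¬ H.Adj (φ t) (ψ r) := by
    intro r hr
    have h := hψ2 r hr
    unfold allowed at h
    have h1 := Finset.mem_sdiff.1 h
    have h2 := Finset.mem_sdiff.1 h1.1
    refine ⟨h2.1, fun c hc he => h2.2 (Finset.mem_image.2 ⟨c, hc, he⟩), fun t ht hh => h1.2 ?_⟩
    exact Finset.mem_biUnion.2 ⟨t, ht, mem_nb.2 ⟨h2.1, hh⟩⟩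
  have hψg : Good G H (A \ (C ∪ T)) ψ :=
    ⟨hψ1, fun x hx v hv _ => S.indI _ (hψ3 x hx).1 _ (hψ3 v hv).1⟩
  have hgood := hψg.union o.good (fun t ht h => (Finset.mem_sdiff.1 h).2 ht)
    (by
      intro r hr x hx he
      rcases Finset.mem_union.1 hx with h | h
      · exact (hψ3 r hr).2.1 x h he.symm
      · exact (Finset.mem_sdiff.1 (o.φY x h)).2 (he ▸ (hψ3 r hr).1))
    (by
      intro r hr x hx hrx hh
      rcases Finset.mem_union.1 hx with h | h
      · exact S.indI _ (hψ3 r hr).1 _ (o.φC x h) hh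
      · exact (hψ3 r hr).2.2 x (mem_nb.2 ⟨h, hrx⟩) hh.symm)
  have hCTA : C ∪ T ⊆ A := Finset.union_subset (o.CA.trans Finset.sdiff_subset) o.TA
  rw [Finset.sdiff_union_of_subset hCTA] at hgood
  refine ⟨_, hgood, ?_⟩
  intro v hv
  by_cases h : v ∈ A \ (C ∪ T)
  · simp only [if_pos h]
    exact S.IU (hψ3 v h).1
  · simp only [if_neg h]
    have h1 : v ∈ C ∪ T := by
      by_contra h2
      exact h (Finset.mem_sdiff.2 ⟨hv, h2⟩)
    rcases Finset.mem_union.1 h1 with h2 | h2
    · exact S.IU (o.φC v h2)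
    · exact (Finset.mem_sdiff.1 (o.φY v h2)).1

end Pool.Agent.H44.Cub
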