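import Pool.Agent.H44.Cub.Basic

set_option autoImplicit false

/-!
# Growing a connected set with few double neighbours
-/

namespace Pool.Agent.H44.Cub

open Finset

variable {V : Type*} [DecidableEq V] {G : SimpleGraph V} [DecidableRel G.Adj]

/-- The number of edges of `G` between `T` and `A ∖ T`. -/
def cut (G : SimpleGraph V) [DecidableRel G.Adj] (A T : Finset V) : ℕ :=
  ∑ v ∈ A \ T, (nb G T v).card

theorem nb_insert_card {T : Finset V} {s v : V} (hs : s ∉ T) :
    (nb G (insert s T) v).card = (nb G T v).card + (if G.Adj s v then 1 else 0) := by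
  unfold nb
  rw [Finset.filter_insert]
  by_cases h : G.Adj v s
  · rw [if_pos h, if_pos h.symm, Finset.card_insert_of_notMem]
    intro hx
    exact hs (Finset.mem_filter.1 hx).1
  · rw [if_neg h, if_neg (fun hh => h hh.symm), Nat.add_zero]

theorem cut_insert {A T : Finset V} {s : V} (hs : s ∈ A \ T) :
    cut G A (insert s T) + (nb G T s).card = cut G A T + (nb G (A \ insert s T) s).card := by
  have hsA : s ∈ A := (Finset.mem_sdiff.1 hs).1
  have hsT : s ∉ T := (Finset.mem_sdiff.1 hs).2
  have h1 : A \ insert s T = (A \ T).erase s := by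
    ext x
    simp only [Finset.mem_sdiff, Finset.mem_insert, not_or, Finset.mem_erase]
    tauto
  have h2 : cut G A T = (nb G T s).card + ∑ v ∈ A \ insert s T, (nb G T v).card := by
    unfold cut
    rw [h1]
    exact (Finset.add_sum_erase (A \ T) (fun v => (nb G T v).card) hs).symm
  have h3 : cut G A (insert s T) =
      ∑ v ∈ A \ insert s T, (nb G T v).card + (nb G (A \ insert s T) s).card := by
    unfold cut
    rw [Finset.sum_congr rfl fun v _ => nb_insert_card (G := G) (v := v) hsT,
      Finset.sum_add_distrib]
    congr 1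
    rw [nb, Finset.card_filter]
  omega

/-- The data kept along the growth. -/
structure Grown (G : SimpleGraph V) [DecidableRel G.Adj] (A T : Finset V) : Prop where
  sub : T ⊆ A
  ne : T.Nonempty
  cut_le : cut G A T ≤ T.card + 2
  le_two : ∀ v ∈ A \ T, (nb G T v).card ≤ 2
  uniq : ∀ u ∈ A \ T, ∀ v ∈ A \ T, (nb G T u).card = 2 → (nb G T v).card = 2 → u = v
  inner : T.card = 1 ∨ ∀ t ∈ T, ∃ u ∈ T, G.Adj t u

theorem Grown.step (deg : ∀ (v : V) (A : Finset V), (nb G A v).card ≤ 3) {A T : Finset V}
    (conn : ∀ T ⊆ A, T.Nonempty → T ≠ A → ∃ v ∈ A \ T, ∃ t ∈ T, G.Adj v t)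
    (hg : Grown G A T) (hc : 2 * (T.card + 1) < A.card) :
    ∃ s ∈ A \ T, Grown G A (insert s T) := by
  have hTA : T ≠ A := by
    rintro rfl
    omega
  -- the inner condition is kept as soon as `s` has a neighbour in `T`
  have hinner : ∀ s : V, (nb G T s).Nonempty →
      ∀ t ∈ insert s T, ∃ u ∈ insert s T, G.Adj t u := by
    intro s hs t ht
    obtain ⟨u, hu⟩ := hs
    have hu' := mem_nb.1 hu
    rcases Finset.mem_insert.1 ht with h | h
    · rw [h]
      exact ⟨u, Finset.mem_insert_of_mem hu'.1, hu'.2⟩
    · rcases hg.inner with h1 | h1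
      · obtain ⟨t0, ht0⟩ := Finset.card_eq_one.1 h1
        have e1 : t = t0 := by
          rw [ht0] at h
          exact Finset.mem_singleton.1 h
        have e2 : u = t0 := by
          have := hu'.1
          rw [ht0] at this
          exact Finset.mem_singleton.1 this
        refine ⟨s, Finset.mem_insert_self _ _, ?_⟩
        rw [e1, ← e2]
        exact hu'.2.symm
      · obtain ⟨x, hx, hx'⟩ := h1 t h
        exact ⟨x, Finset.mem_insert_of_mem hx, hx'⟩
  by_cases hex : ∃ s ∈ A \ T, (nb G T s).card = 2
  · obtain ⟨s, hs, hs2⟩ := hex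
    have hsA : s ∈ A := (Finset.mem_sdiff.1 hs).1
    have hsT : s ∉ T := (Finset.mem_sdiff.1 hs).2
    have hout : (nb G (A \ insert s T) s).card ≤ 1 := by
      have hdis : Disjoint (nb G T s) (nb G (A \ insert s T) s) := by
        rw [Finset.disjoint_left]
        intro x hx hx'
        exact (Finset.mem_sdiff.1 (nb_subset hx')).2 (Finset.mem_insert_of_mem (nb_subset hx))
      have hsub : nb G T s ∪ nb G (A \ insert s T) s ⊆ nb G A s := by
        intro x hx
        rcases Finset.mem_union.1 hx with hx | hx
        · exact nb_mono hg.sub hx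
        · exact nb_mono Finset.sdiff_subset hx
      have := (Finset.card_le_card hsub).trans (deg s A)
      rw [Finset.card_union_of_disjoint hdis] at this
      omega
    have hle1 : ∀ v ∈ A \ insert s T, (nb G T v).card ≤ 1 := by
      intro v hv
      have hv' := Finset.mem_sdiff.1 hv
      have hvT : v ∈ A \ T :=
        Finset.mem_sdiff.2 ⟨hv'.1, fun h => hv'.2 (Finset.mem_insert_of_mem h)⟩
      have h2 := hg.le_two v hvT
      by_contra hcon
      have h3 : (nb G T v).card = 2 := by omega
      have := hg.uniq v hvT s hs h3 hs2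
      exact hv'.2 (this ▸ Finset.mem_insert_self _ _)
    refine ⟨s, hs, ?_, ?_, ?_, ?_, ?_, ?_⟩
    · intro x hx
      rcases Finset.mem_insert.1 hx with h | h
      · rw [h]; exact hsA
      · exact hg.sub h
    · exact ⟨s, Finset.mem_insert_self _ _⟩
    · have h1 := cut_insert (G := G) hs
      have h2 := hg.cut_le
      rw [Finset.card_insert_of_notMem hsT]
      omega
    · intro v hv
      rw [nb_insert_card hsT]
      have := hle1 v hv
      split_ifs <;> omega
    · intro u hu v hv hu2 hv2
      rw [nb_insert_card hsT] at hu2 hv2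
      have h1 := hle1 u hu
      have h2 := hle1 v hv
      have hau : G.Adj s u := by
        by_contra h
        rw [if_neg h] at hu2
        omega
      have hav : G.Adj s v := by
        by_contra h
        rw [if_neg h] at hv2
        omega
      exact Finset.card_le_one.1 hout u (mem_nb.2 ⟨hu, hau⟩) v (mem_nb.2 ⟨hv, hav⟩)
    · right
      refine hinner s ?_
      rw [← Finset.card_pos]
      omega
  · have hle1 : ∀ v ∈ A \ T, (nb G T v).card ≤ 1 := by
      intro v hv
      have h2 := hg.le_two v hv
      by_contra hcon
      exact hex ⟨v, hv, by omega⟩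
    set S₁ := (A \ T).filter (fun v => (nb G T v).Nonempty) with hS₁
    have hcutS : cut G A T = S₁.card := by
      unfold cut
      rw [hS₁, Finset.card_filter]
      refine Finset.sum_congr rfl fun v hv => ?_
      have h1 := hle1 v hv
      by_cases hne : (nb G T v).Nonempty
      · rw [if_pos hne]
        have := Finset.card_pos.2 hne
        omega
      · rw [if_neg hne]
        rw [Finset.not_nonempty_iff_eq_empty.1 hne, Finset.card_empty]
    have hS₁A : S₁ ⊆ A \ T := Finset.filter_subset _ _
    obtain ⟨s, hs, hs1⟩ : ∃ s ∈ S₁, (nb G S₁ s).card ≤ 1 := by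
      by_contra hcon
      push Not at hcon
      -- then `T ∪ S₁` is closed
      have hclosed : T ∪ S₁ = A := by
        by_contra hne
        obtain ⟨v, hv, t, ht, hvt⟩ := conn (T ∪ S₁) (by
          intro x hx
          rcases Finset.mem_union.1 hx with hx | hx
          · exact hg.sub hx
          · exact (Finset.mem_sdiff.1 (hS₁A hx)).1) (hg.ne.mono Finset.subset_union_left) hne
        have hv' := Finset.mem_sdiff.1 hv
        rw [Finset.mem_union, not_or] at hv'
        rcases Finset.mem_union.1 ht with ht | ht
        · apply hv'.2.2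
          rw [hS₁, Finset.mem_filter]
          exact ⟨Finset.mem_sdiff.2 ⟨hv'.1, hv'.2.1⟩, ⟨t, mem_nb.2 ⟨ht, hvt⟩⟩⟩
        · have h1 := hcon t ht
          obtain ⟨x, hx⟩ := (Finset.mem_filter.1 ht).2
          have hxv : x ≠ v := fun h => hv'.2.1 (h ▸ nb_subset hx)
          have hxS : x ∉ nb G S₁ t := fun h =>
            (Finset.mem_sdiff.1 (hS₁A (nb_subset h))).2 (nb_subset hx)
          have hvS : v ∉ nb G S₁ t := fun h => hv'.2.2 (nb_subset h)
          have hsub : insert x (insert v (nb G S₁ t)) ⊆ nb G A t := by
            intro y hy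
            rcases Finset.mem_insert.1 hy with h | h
            · rw [h]; exact nb_mono hg.sub hx
            · rcases Finset.mem_insert.1 h with h | h
              · rw [h]; exact mem_nb.2 ⟨hv'.1, hvt.symm⟩
              · exact nb_mono (hS₁A.trans Finset.sdiff_subset) h
          have h4 := (Finset.card_le_card hsub).trans (deg t A)
          rw [Finset.card_insert_of_notMem, Finset.card_insert_of_notMem hvS] at h4
          · omega
          · rw [Finset.mem_insert, not_or]
            exact ⟨hxv, hxS⟩
      have h1 : A.card ≤ T.card + S₁.card := by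
        rw [← hclosed]
        exact Finset.card_union_le _ _
      have h2 := hg.cut_le
      omega
    have hsAT := hS₁A hs
    have hsA : s ∈ A := (Finset.mem_sdiff.1 hsAT).1
    have hsT : s ∉ T := (Finset.mem_sdiff.1 hsAT).2
    have hsne : (nb G T s).Nonempty := (Finset.mem_filter.1 hs).2
    have hout : (nb G (A \ insert s T) s).card ≤ 2 := by
      obtain ⟨x, hx⟩ := hsne
      have hx1 : x ∉ nb G (A \ insert s T) s := fun h =>
        (Finset.mem_sdiff.1 (nb_subset h)).2 (Finset.mem_insert_of_mem (nb_subset hx))
      have hsub : insert x (nb G (A \ insert s T) s) ⊆ nb G A s := by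
        intro y hy
        rcases Finset.mem_insert.1 hy with h | h
        · rw [h]; exact nb_mono hg.sub hx
        · exact nb_mono Finset.sdiff_subset h
      have h4 := (Finset.card_le_card hsub).trans (deg s A)
      rw [Finset.card_insert_of_notMem hx1] at h4
      omega
    have hle1' : ∀ v ∈ A \ insert s T, (nb G T v).card ≤ 1 := by
      intro v hv
      have hv' := Finset.mem_sdiff.1 hv
      exact hle1 v (Finset.mem_sdiff.2 ⟨hv'.1, fun h => hv'.2 (Finset.mem_insert_of_mem h)⟩)
    refine ⟨s, hsAT, ?_, ?_, ?_, ?_, ?_, ?_⟩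
    · intro x hx
      rcases Finset.mem_insert.1 hx with h | h
      · rw [h]; exact hsA
      · exact hg.sub h
    · exact ⟨s, Finset.mem_insert_self _ _⟩
    · have h1 := cut_insert (G := G) hsAT
      have h2 := hg.cut_le
      have h3 := Finset.card_pos.2 hsne
      rw [Finset.card_insert_of_notMem hsT]
      omega
    · intro v hv
      rw [nb_insert_card hsT]
      have := hle1' v hv
      split_ifs <;> omega
    · intro u hu v hv hu2 hv2
      rw [nb_insert_card hsT] at hu2 hv2
      have key : ∀ x ∈ A \ insert s T,
          (nb G T x).card + (if G.Adj s x then 1 else 0) = 2 → x ∈ nb G S₁ s := by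
        intro x hx hx2
        have h1 := hle1' x hx
        have hx' := Finset.mem_sdiff.1 hx
        have ha : G.Adj s x := by
          by_contra h
          rw [if_neg h] at hx2
          omega
        rw [if_pos ha] at hx2
        refine mem_nb.2 ⟨Finset.mem_filter.2 ⟨Finset.mem_sdiff.2 ⟨hx'.1, fun h =>
          hx'.2 (Finset.mem_insert_of_mem h)⟩, ?_⟩, ha⟩
        rw [← Finset.card_pos]
        omega
      exact Finset.card_le_one.1 hs1 u (key u hu hu2) v (key v hv hv2)
    · exact Or.inr (hinner s hsne)

theorem exists_grown (deg : ∀ (v : V) (A : Finset V), (nb G A v).card ≤ 3) {A : Finset V}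
    (conn : ∀ T ⊆ A, T.Nonempty → T ≠ A → ∃ v ∈ A \ T, ∃ t ∈ T, G.Adj v t)
    (hA : A.Nonempty) (m : ℕ) (hm : 1 ≤ m) :
    2 * m < A.card → ∃ T, T.card = m ∧ Grown G A T := by
  induction m, hm using Nat.le_induction with
  | base =>
    intro _
    obtain ⟨w, hw⟩ := hA
    have hle1 : ∀ v : V, (nb G {w} v).card ≤ 1 := fun v =>
      (Finset.card_le_card nb_subset).trans (by rw [Finset.card_singleton])
    refine ⟨{w}, Finset.card_singleton w, ?_, ?_, ?_, ?_, ?_, ?_⟩
    · exact Finset.singleton_subset_iff.2 hw
    · exact Finset.singleton_nonempty w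
    · have h1 : cut G A {w} ≤ (nb G A w).card := by
        unfold cut
        rw [sum_nb_comm, Finset.sum_singleton]
        exact Finset.card_le_card (nb_mono Finset.sdiff_subset)
      have := deg w A
      rw [Finset.card_singleton]
      omega
    · intro v _
      have := hle1 v
      omega
    · intro u _ v _ hu _
      have := hle1 u
      omega
    · exact Or.inl (Finset.card_singleton w)
  | succ m hm ih =>
    intro hc
    obtain ⟨T, hTc, hg⟩ := ih (by omega)
    obtain ⟨s, hs, hg'⟩ := hg.step deg conn (by omega)
    refine ⟨insert s T, ?_, hg'⟩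
    rw [Finset.card_insert_of_notMem (Finset.mem_sdiff.1 hs).2, hTc]

end Pool.Agent.H44.Cub
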