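import Pool.Agent.H44.Cub.Basic

set_option autoImplicit false

/-!
# Hosts of small degree

If the maximum degree `Δ` inside `U` satisfies `2 Δ ≤ |U| - |A|` and `3 Δ + 4 ≤ |U|` then a
connected set `A` of guests with at most three neighbours each can be placed inside `U`.
-/

namespace Pool.Agent.H44.Cub

open Finset

variable {V W : Type*} [DecidableEq V] [DecidableEq W] {G : SimpleGraph V} {H : SimpleGraph W}
  [DecidableRel G.Adj] [DecidableRel H.Adj]

/-- Every placement of `(A ∖ T) ∪ {w}` inside `U` extends to `A ∖ Nw`. -/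
def Ext (G : SimpleGraph V) (H : SimpleGraph W) (U : Finset W) (A Nw : Finset V) (w : V)
    (T : Finset V) : Prop :=
  ∀ φ : V → W, Good G H (insert w (A \ T)) φ → (∀ v ∈ insert w (A \ T), φ v ∈ U) →
    ∃ φ' : V → W, Good G H (A \ Nw) φ' ∧ (∀ v ∈ A \ Nw, φ' v ∈ U) ∧
      ∀ v ∈ insert w (A \ T), φ' v = φ v

/-- Adding to `T` a vertex with a neighbour in `T` other than `w`. -/
theorem Ext.step (deg : ∀ (v : V) (A : Finset V), (nb G A v).card ≤ 3)
    {A : Finset V} {U : Finset W} {Δ : ℕ} {w : V} (hw : w ∈ A)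
    (hmax : ∀ y ∈ U, (nb H U y).card ≤ Δ) (h1 : 2 * Δ + A.card ≤ U.card)
    {Nw T : Finset V} (hT : T ⊆ A) (hE : Ext G H U A Nw w T) {v t : V} (hv : v ∈ A \ T)
    (ht : t ∈ T) (htw : t ≠ w) (hwT : w ∈ T) (hvt : G.Adj v t) :
    Ext G H U A Nw w (insert v T) := by
  intro φ hφ hU
  have hvA : v ∈ A := (Finset.mem_sdiff.1 hv).1
  have hvT : v ∉ T := (Finset.mem_sdiff.1 hv).2
  have hvw : v ≠ w := fun h => hvT (h ▸ hwT)
  set B := insert w (A \ insert v T) with hB
  have hvB : v ∉ B := by
    intro h
    rcases Finset.mem_insert.1 h with h | h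
    · exact hvw h
    · exact (Finset.mem_sdiff.1 h).2 (Finset.mem_insert_self _ _)
  have htB : t ∉ B := by
    intro h
    rcases Finset.mem_insert.1 h with h | h
    · exact htw h
    · exact (Finset.mem_sdiff.1 h).2 (Finset.mem_insert_of_mem ht)
  have hBA : B ⊆ A := by
    intro x hx
    rcases Finset.mem_insert.1 hx with h | h
    · rw [h]; exact hw
    · exact (Finset.mem_sdiff.1 h).1
  have hBc : B.card + 1 ≤ A.card := by
    rw [← Finset.card_insert_of_notMem hvB]
    refine Finset.card_le_card ?_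
    intro x hx
    rcases Finset.mem_insert.1 hx with h | h
    · rw [h]; exact hvA
    · exact hBA h
  have hnb : (nb G B v).card ≤ 2 := by
    have h3 : t ∉ nb G B v := fun h => htB (nb_subset h)
    have h4 : insert t (nb G B v) ⊆ nb G A v := by
      intro x hx
      rcases Finset.mem_insert.1 hx with h | h
      · rw [h]; exact mem_nb.2 ⟨hT ht, hvt⟩
      · exact nb_mono hBA h
    have h5 := (Finset.card_le_card h4).trans (deg v A)
    rw [Finset.card_insert_of_notMem h3] at h5
    omega
  have hsum : ∑ u ∈ nb G B v, (nb H U (φ u)).card ≤ 2 * Δ := by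
    calc ∑ u ∈ nb G B v, (nb H U (φ u)).card ≤ ∑ _u ∈ nb G B v, Δ :=
          Finset.sum_le_sum fun u hu => hmax _ (hU u (nb_subset hu))
      _ = (nb G B v).card * Δ := by rw [Finset.sum_const, smul_eq_mul]
      _ ≤ 2 * Δ := Nat.mul_le_mul_right _ hnb
  have himg : ((B.image φ) ∩ U).card ≤ B.card :=
    (Finset.card_le_card Finset.inter_subset_left).trans Finset.card_image_le
  obtain ⟨y, hy, hgood⟩ := place (X := U) hφ hvB (by omega)
  have heq : insert v B = insert w (A \ T) := by
    ext x
    simp only [hB, Finset.mem_insert, Finset.mem_sdiff, not_or]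
    constructor
    · rintro (rfl | rfl | ⟨h1, h2, h3⟩)
      · exact Or.inr ⟨hvA, hvT⟩
      · exact Or.inl rfl
      · exact Or.inr ⟨h1, h3⟩
    · rintro (rfl | ⟨h1, h2⟩)
      · exact Or.inr (Or.inl rfl)
      · by_cases hxv : x = v
        · exact Or.inl hxv
        · exact Or.inr (Or.inr ⟨h1, hxv, h2⟩)
  rw [heq] at hgood
  obtain ⟨φ', h1', h2', h3'⟩ := hE _ hgood (by
    intro x hx
    rw [← heq] at hx
    rcases Finset.mem_insert.1 hx with h | h
    · rw [h, upd_self]; exact hy
    · rw [upd_of_mem hvB h]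
      exact hU x h)
  refine ⟨φ', h1', h2', ?_⟩
  intro x hx
  rw [h3' x (by rw [← heq]; exact Finset.mem_insert_of_mem hx), upd_of_mem hvB hx]

theorem exists_ext (deg : ∀ (v : V) (A : Finset V), (nb G A v).card ≤ 3)
    {A : Finset V} {U : Finset W} {Δ : ℕ} {w : V} (hw : w ∈ A)
    (hmax : ∀ y ∈ U, (nb H U y).card ≤ Δ)
    (conn : ∀ T ⊆ A, T.Nonempty → T ≠ A → ∃ v ∈ A \ T, ∃ t ∈ T, G.Adj v t)
    (h1 : 2 * Δ + A.card ≤ U.card) (j : ℕ) (hj : (insert w (nb G A w)).card ≤ j) :
    j ≤ A.card → ∃ T ⊆ A, insert w (nb G A w) ⊆ T ∧ T.card = j ∧ Ext G H U A (nb G A w) w T := by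
  induction j, hj using Nat.le_induction with
  | base =>
    intro _
    refine ⟨insert w (nb G A w), ?_, Finset.Subset.refl _, rfl, ?_⟩
    · intro x hx
      rcases Finset.mem_insert.1 hx with h | h
      · rw [h]; exact hw
      · exact nb_subset h
    · intro φ hφ hU
      have hwn : w ∉ nb G A w := fun h => G.loopless.irrefl _ (mem_nb.1 h).2
      have heq : insert w (A \ insert w (nb G A w)) = A \ nb G A w := by
        ext x
        simp only [Finset.mem_insert, Finset.mem_sdiff, not_or]
        constructor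
        · rintro (rfl | ⟨h1, h2, h3⟩)
          · exact ⟨hw, hwn⟩
          · exact ⟨h1, h3⟩
        · rintro ⟨h1, h2⟩
          by_cases hxv : x = w
          · exact Or.inl hxv
          · exact Or.inr ⟨h1, hxv, h2⟩
      rw [heq] at hφ hU
      exact ⟨φ, hφ, hU, fun v _ => rfl⟩
  | succ j hj ih =>
    intro hjA
    obtain ⟨T, hTA, hTs, hTc, hE⟩ := ih (by omega)
    have hwT : w ∈ T := hTs (Finset.mem_insert_self _ _)
    obtain ⟨v, hv, t, ht, hvt⟩ := conn T hTA ⟨w, hwT⟩ (by
      rintro rfl
      omega)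
    have hvA : v ∈ A := (Finset.mem_sdiff.1 hv).1
    have hvT : v ∉ T := (Finset.mem_sdiff.1 hv).2
    have htw : t ≠ w := by
      rintro rfl
      exact hvT (hTs (Finset.mem_insert_of_mem (mem_nb.2 ⟨hvA, hvt.symm⟩)))
    refine ⟨insert v T, ?_, hTs.trans (Finset.subset_insert _ _), ?_, ?_⟩
    · intro x hx
      rcases Finset.mem_insert.1 hx with h | h
      · rw [h]; exact hvA
      · exact hTA h
    · rw [Finset.card_insert_of_notMem hvT, hTc]
    · exact hE.step deg hw hmax h1 hTA hv ht htw hwT hvt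

theorem part_one [Nonempty W] (tri : TriFree H)
    (deg : ∀ (v : V) (A : Finset V), (nb G A v).card ≤ 3)
    {A : Finset V} {U : Finset W} {Δ : ℕ} {w : V} (hw : w ∈ A) {h : W} (hh : h ∈ U)
    (hΔ : (nb H U h).card = Δ) (hmax : ∀ y ∈ U, (nb H U y).card ≤ Δ)
    (conn : ∀ T ⊆ A, T.Nonempty → T ≠ A → ∃ v ∈ A \ T, ∃ t ∈ T, G.Adj v t)
    (h1 : 2 * Δ + A.card ≤ U.card) (h2 : 3 * Δ + 4 ≤ U.card) :
    ∃ φ : V → W, Good G H A φ ∧ ∀ v ∈ A, φ v ∈ U := by
  have hwn : w ∉ nb G A w := fun h => G.loopless.irrefl _ (mem_nb.1 h).2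
  have hT0c : (insert w (nb G A w)).card = (nb G A w).card + 1 :=
    Finset.card_insert_of_notMem hwn
  have hT0A : insert w (nb G A w) ⊆ A := by
    intro x hx
    rcases Finset.mem_insert.1 hx with h | h
    · rw [h]; exact hw
    · exact nb_subset h
  have hT0le : (nb G A w).card + 1 ≤ A.card := by
    rw [← hT0c]; exact Finset.card_le_card hT0A
  have hNw3 : (nb G A w).card ≤ 3 := deg w A
  obtain ⟨s, hsΔ, hsle, hsor⟩ : ∃ s, s ≤ Δ ∧ s + ((nb G A w).card + 1) ≤ A.card ∧
      (s = Δ ∨ s + ((nb G A w).card + 1) = A.card) := by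
    rcases le_total Δ (A.card - ((nb G A w).card + 1)) with hle | hle
    · exact ⟨Δ, le_rfl, by omega, Or.inl rfl⟩
    · exact ⟨A.card - ((nb G A w).card + 1), hle, by omega, Or.inr (by omega)⟩
  obtain ⟨T, hTA, hTs, hTc, hE⟩ := exists_ext (H := H) deg hw hmax conn h1 (A.card - s)
    (by rw [hT0c]; omega) (by omega)
  have hwT : w ∈ T := hTs (Finset.mem_insert_self _ _)
  have hScard : (A \ T).card = s := by
    rw [Finset.card_sdiff_of_subset hTA]
    omega
  obtain ⟨ψ, hψ, hψN⟩ := good_of_ind (G := G) (S := A \ T) (nb_ind tri U h)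
    (by rw [hScard, hΔ]; exact hsΔ)
  have hwS : w ∉ A \ T := fun h => (Finset.mem_sdiff.1 h).2 hwT
  have hhN : h ∉ nb H U h := fun hx => H.loopless.irrefl _ (mem_nb.1 hx).2
  have hgood1 : Good G H (insert w (A \ T)) (Function.update ψ w h) := by
    refine hψ.insert hwS ?_ ?_
    · intro u hu he
      exact hhN (he ▸ hψN u hu)
    · intro u hu huw
      exact absurd (hTs (Finset.mem_insert_of_mem (mem_nb.2 ⟨(Finset.mem_sdiff.1 hu).1, huw⟩)))
        (Finset.mem_sdiff.1 hu).2
  have hval1 : ∀ v ∈ insert w (A \ T), Function.update ψ w h v ∈ insert h (nb H U h) := by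
    intro v hv
    rcases Finset.mem_insert.1 hv with hv | hv
    · rw [hv, upd_self]
      exact Finset.mem_insert_self _ _
    · rw [upd_of_mem hwS hv]
      exact Finset.mem_insert_of_mem (hψN v hv)
  have hsubU : insert h (nb H U h) ⊆ U := by
    intro x hx
    rcases Finset.mem_insert.1 hx with hx | hx
    · rw [hx]; exact hh
    · exact nb_subset hx
  obtain ⟨φ', hφ', hφU, hag⟩ := hE _ hgood1 (fun v hv => hsubU (hval1 v hv))
  have hSsub : insert w (A \ T) ⊆ A \ nb G A w := by
    intro x hx
    rcases Finset.mem_insert.1 hx with hx | hx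
    · rw [hx]; exact Finset.mem_sdiff.2 ⟨hw, hwn⟩
    · have := Finset.mem_sdiff.1 hx
      exact Finset.mem_sdiff.2 ⟨this.1, fun h => this.2 (hTs (Finset.mem_insert_of_mem h))⟩
  have hSwc : (insert w (A \ T)).card = s + 1 := by
    rw [Finset.card_insert_of_notMem hwS, hScard]
  have hφ'w : φ' w = h := by
    rw [hag w (Finset.mem_insert_self _ _), upd_self]
  have key : ∀ P ⊆ nb G A w, ∃ φ : V → W, Good G H ((A \ nb G A w) ∪ P) φ ∧
      (∀ v ∈ (A \ nb G A w) ∪ P, φ v ∈ U) ∧ ∀ v ∈ A \ nb G A w, φ v = φ' v := by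
    intro P
    induction P using Finset.induction_on with
    | empty =>
      intro _
      refine ⟨φ', ?_, ?_, fun _ _ => rfl⟩
      · rw [Finset.union_empty]; exact hφ'
      · rw [Finset.union_empty]; exact hφU
    | insert v P hvP ih =>
      intro hP
      obtain ⟨φ, hφ, hφU, hφag⟩ := ih ((Finset.subset_insert _ _).trans hP)
      have hvN : v ∈ nb G A w := hP (Finset.mem_insert_self _ _)
      have hvA : v ∈ A := (mem_nb.1 hvN).1
      have hwv : G.Adj w v := (mem_nb.1 hvN).2
      set B := (A \ nb G A w) ∪ P with hB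
      have hvB : v ∉ B := by
        intro hx
        rcases Finset.mem_union.1 hx with hx | hx
        · exact (Finset.mem_sdiff.1 hx).2 hvN
        · exact hvP hx
      have hBA : B ⊆ A := by
        intro x hx
        rcases Finset.mem_union.1 hx with hx | hx
        · exact (Finset.mem_sdiff.1 hx).1
        · exact nb_subset (hP (Finset.mem_insert_of_mem hx))
      have hBc : B.card + 1 ≤ A.card := by
        rw [← Finset.card_insert_of_notMem hvB]
        refine Finset.card_le_card ?_
        intro x hx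
        rcases Finset.mem_insert.1 hx with h | h
        · rw [h]; exact hvA
        · exact hBA h
      have hwB : w ∈ B := Finset.mem_union_left _ (Finset.mem_sdiff.2 ⟨hw, hwn⟩)
      have hSB : insert w (A \ T) ⊆ B := hSsub.trans Finset.subset_union_left
      have hφw : φ w = h := by
        rw [hφag w (Finset.mem_sdiff.2 ⟨hw, hwn⟩), hφ'w]
      set X := U \ insert h (nb H U h) with hX
      have hXc : X.card = U.card - (Δ + 1) := by
        rw [hX, Finset.card_sdiff_of_subset hsubU, Finset.card_insert_of_notMem hhN, hΔ]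
      have himg : ((B.image φ) ∩ X).card ≤ B.card - (s + 1) := by
        have hsub : (B.image φ) ∩ X ⊆ (B \ insert w (A \ T)).image φ := by
          intro y hy
          obtain ⟨hy1, hy2⟩ := Finset.mem_inter.1 hy
          obtain ⟨u, hu, rfl⟩ := Finset.mem_image.1 hy1
          refine Finset.mem_image.2 ⟨u, Finset.mem_sdiff.2 ⟨hu, ?_⟩, rfl⟩
          intro huS
          have h5 : φ u = Function.update ψ w h u := by
            rw [hφag u (hSsub huS), hag u huS]
          have h6 := hval1 u huS
          rw [← h5] at h6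
          exact (Finset.mem_sdiff.1 hy2).2 h6
        refine (Finset.card_le_card hsub).trans (Finset.card_image_le.trans ?_)
        rw [Finset.card_sdiff_of_subset hSB, hSwc]
      have hwnb : w ∈ nb G B v := mem_nb.2 ⟨hwB, hwv.symm⟩
      have hsum : ∑ u ∈ nb G B v, (nb H X (φ u)).card ≤ 2 * Δ := by
        rw [← Finset.add_sum_erase _ _ hwnb]
        have h0 : (nb H X (φ w)).card = 0 := by
          rw [Finset.card_eq_zero, Finset.eq_empty_iff_forall_notMem]
          intro y hy
          rw [hφw] at hy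
          have hy' := mem_nb.1 hy
          have hy2 := Finset.mem_sdiff.1 hy'.1
          exact hy2.2 (Finset.mem_insert_of_mem (mem_nb.2 ⟨hy2.1, hy'.2⟩))
        rw [h0, Nat.zero_add]
        have hc2 : ((nb G B v).erase w).card ≤ 2 := by
          rw [Finset.card_erase_of_mem hwnb]
          have := deg v B
          omega
        calc ∑ u ∈ (nb G B v).erase w, (nb H X (φ u)).card
            ≤ ∑ _u ∈ (nb G B v).erase w, Δ := by
              refine Finset.sum_le_sum fun u hu => ?_
              refine (Finset.card_le_card (nb_mono Finset.sdiff_subset)).trans ?_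
              exact hmax _ (hφU u (nb_subset (Finset.mem_of_mem_erase hu)))
          _ = ((nb G B v).erase w).card * Δ := by rw [Finset.sum_const, smul_eq_mul]
          _ ≤ 2 * Δ := Nat.mul_le_mul_right _ hc2
      have hsB : s + 1 ≤ B.card := by
        rw [← hSwc]; exact Finset.card_le_card hSB
      obtain ⟨y, hy, hgood⟩ := place (X := X) hφ hvB (by
        rw [hXc]
        rcases hsor with hs | hs <;> omega)
      refine ⟨Function.update φ v y, ?_, ?_, ?_⟩
      · rw [Finset.union_insert]
        exact hgood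
      · intro x hx
        rw [Finset.union_insert] at hx
        rcases Finset.mem_insert.1 hx with hx | hx
        · rw [hx, upd_self]
          exact (Finset.mem_sdiff.1 hy).1
        · rw [upd_of_mem hvB hx]
          exact hφU x hx
      · intro x hx
        rw [upd_of_mem hvB (Finset.mem_union_left _ hx)]
        exact hφag x hx
  obtain ⟨φ, hφ, hφU, _⟩ := key (nb G A w) (Finset.Subset.refl _)
  have hAeq : (A \ nb G A w) ∪ nb G A w = A := Finset.sdiff_union_of_subset nb_subset
  rw [hAeq] at hφ hφU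
  exact ⟨φ, hφ, hφU⟩

end Pool.Agent.H44.Cub
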