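import Pool.Agent.H44.Cub.Finish
import Pool.Agent.H44.Cub.PartOne

set_option autoImplicit false
set_option linter.unusedSectionVars false

/-!
# Graphs of maximum degree three against a triangle
-/

namespace Pool.Agent.H44.Cub

open Finset

variable {V W : Type*} [DecidableEq V] [DecidableEq W] {G : SimpleGraph V} {H : SimpleGraph W}
  [DecidableRel G.Adj] [DecidableRel H.Adj]

/-- Every set `A` of guests, each with at most three neighbours, can be placed in any set of
`g |A|` hosts of a triangle-free graph. -/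
theorem embed [Nonempty W] (tri : TriFree H)
    (deg : ∀ (v : V) (A : Finset V), (nb G A v).card ≤ 3) :
    ∀ (k : ℕ) (A : Finset V), A.card = k → ∀ U : Finset W, g k ≤ U.card →
      ∃ φ : V → W, Good G H A φ ∧ ∀ v ∈ A, φ v ∈ U := by
  intro k
  induction k using Nat.strong_induction_on with
  | _ k ih =>
  intro A hAk U₀ hU₀
  obtain ⟨U, hUU, hUc⟩ := Finset.exists_subset_card_eq hU₀
  suffices hsuff : ∃ φ : V → W, Good G H A φ ∧ ∀ v ∈ A, φ v ∈ U by
    obtain ⟨φ, h1, h2⟩ := hsuff
    exact ⟨φ, h1, fun v hv => hUU (h2 v hv)⟩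
  -- an independent set of size `k` is enough
  have hbig : ∀ I ⊆ U, Ind H I → k ≤ I.card →
      ∃ φ : V → W, Good G H A φ ∧ ∀ v ∈ A, φ v ∈ U := by
    intro I hIU hI hc
    obtain ⟨ψ, h1, h2⟩ := good_of_ind (G := G) (S := A) hI (by rw [hAk]; exact hc)
    exact ⟨ψ, h1, fun v hv => hIU (h2 v hv)⟩
  rcases Nat.lt_or_ge 4 k with hk5 | hk4
  swap
  · obtain ⟨I, hIU, hI, hc⟩ := exists_ind tri k U (by rw [hUc, g_of_le_four hk4])
    exact hbig I hIU hI (le_of_eq hc.symm)
  by_cases conn : ∀ T ⊆ A, T.Nonempty → T ≠ A → ∃ v ∈ A \ T, ∃ t ∈ T, G.Adj v t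
  swap
  · -- the disconnected case
    push Not at conn
    obtain ⟨T, hTA, hTne, hTneq, hno⟩ := conn
    have hT1 : 1 ≤ T.card := Finset.card_pos.2 hTne
    have hTk : T.card < k := by
      rw [← hAk]
      exact Finset.card_lt_card (Finset.ssubset_iff_subset_ne.2 ⟨hTA, hTneq⟩)
    obtain ⟨φ₁, hg1, hv1⟩ := ih T.card hTk T rfl U (by rw [hUc]; exact g_mono hTk.le)
    have hAT : (A \ T).card = k - T.card := by
      rw [Finset.card_sdiff_of_subset hTA, hAk]
    have hUc2 : g (k - T.card) ≤ (U \ T.image φ₁).card := by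
      have h1 := Finset.le_card_sdiff (T.image φ₁) U
      have h2 : (T.image φ₁).card ≤ T.card := Finset.card_image_le
      have h3 := g_add (k - T.card) T.card
      rw [Nat.sub_add_cancel hTk.le] at h3
      omega
    obtain ⟨φ₂, hg2, hv2⟩ := ih (k - T.card) (by omega) (A \ T) hAT _ hUc2
    have hgood := hg1.union hg2 (fun t ht => (Finset.mem_sdiff.1 ht).2)
      (by
        intro x hx y hy he
        exact (Finset.mem_sdiff.1 (hv2 y hy)).2 (Finset.mem_image.2 ⟨x, hx, he⟩))
      (fun x hx y hy hxy => absurd hxy.symm (hno y hy x hx))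
    rw [Finset.union_sdiff_of_subset hTA] at hgood
    refine ⟨_, hgood, ?_⟩
    intro v hv
    by_cases h : v ∈ T
    · simp only [if_pos h]
      exact hv1 v h
    · simp only [if_neg h]
      exact (Finset.mem_sdiff.1 (hv2 v (Finset.mem_sdiff.2 ⟨hv, h⟩))).1
  -- a maximum independent set
  classical
  obtain ⟨I, hI, hImax⟩ := Finset.exists_max_image (U.powerset.filter (fun J => Ind H J))
    Finset.card ⟨∅, Finset.mem_filter.2 ⟨Finset.empty_mem_powerset _,
      fun x hx => absurd hx (Finset.notMem_empty x)⟩⟩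
  rw [Finset.mem_filter, Finset.mem_powerset] at hI
  obtain ⟨hIU, hIind⟩ := hI
  have hmaxI : ∀ J ⊆ U, Ind H J → J.card ≤ I.card := fun J hJ hJi =>
    hImax J (Finset.mem_filter.2 ⟨Finset.mem_powerset.2 hJ, hJi⟩)
  rcases Nat.lt_or_ge I.card k with hIk | hIk
  swap
  · exact hbig I hIU hIind hIk
  obtain ⟨a, ha⟩ : ∃ a, I.card = a := ⟨_, rfl⟩
  rw [ha] at hIk hmaxI
  obtain ⟨m, hm⟩ : ∃ m, k = a + m := ⟨k - a, by omega⟩
  have hm1 : 1 ≤ m := by omega
  have h10 : 5 * k ≤ 2 * g k := five_le_g hk5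
  have ha4 : 4 ≤ a := by
    obtain ⟨J, hJ, hJi, hJc⟩ := exists_ind tri 4 U (by
      rw [hUc]
      have h1 := g_mono (show 5 ≤ k from hk5)
      have h2 : g 5 = 13 := by decide
      omega)
    rw [← hJc]
    exact hmaxI J hJ hJi
  have ha6 : k = 6 → 5 ≤ a := by
    intro h6
    obtain ⟨J, hJ, hJi, hJc⟩ := exists_ind tri 5 U (by
      rw [hUc, h6]
      decide)
    rw [← hJc]
    exact hmaxI J hJ hJi
  -- the maximum degree
  have hUne : U.Nonempty := by
    rw [← Finset.card_pos, hUc]
    omega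
  obtain ⟨h, hh, hhmax⟩ := Finset.exists_max_image U (fun y => (nb H U y).card) hUne
  obtain ⟨Δ, hΔ⟩ : ∃ Δ, (nb H U h).card = Δ := ⟨_, rfl⟩
  simp only [hΔ] at hhmax
  have hΔa : Δ ≤ a := by
    rw [← hΔ]
    exact hmaxI _ nb_subset (nb_ind tri U h)
  have hAne : A.Nonempty := by
    rw [← Finset.card_pos, hAk]
    omega
  by_cases hpass : 2 * Δ + k ≤ g k ∧ 3 * Δ + 4 ≤ g k
  · obtain ⟨w, hw⟩ := hAne
    exact part_one tri deg hw hh hΔ hhmax conn (by rw [hAk, hUc]; exact hpass.1)
      (by rw [hUc]; exact hpass.2)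
  obtain ⟨β, hβeq, h2m, ham, hβ, hcase⟩ := params hk5 hm hm1 hΔa ha4 ha6 hpass
  obtain ⟨T₀, hT₀c, hT₀⟩ := exists_grown deg conn hAne m hm1 (by rw [hAk]; exact h2m)
  have hUI : (U \ I).card = β + g m := by
    rw [Finset.card_sdiff_of_subset hIU, hUc, ha, hβeq]
    omega
  obtain ⟨B, hBY, hBc, hBtop⟩ := exists_top (fun y => (nb H I y).card) (U \ I) β (by
    rw [hUI]
    omega)
  obtain ⟨φ₀, hφ₀, hφ₀Y⟩ := ih m (by omega) T₀ hT₀c ((U \ I) \ B) (by
    rw [Finset.card_sdiff_of_subset hBY, hUI, hBc]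
    omega)
  have S : Setup G H A U I B T₀ φ₀ a m β Δ :=
    { deg := deg
      hmax := hhmax
      ha := hΔa
      IU := hIU
      indI := hIind
      cardI := ha
      cardA := by rw [hAk, hm]
      T0A := hT₀.sub
      cardT0 := hT₀c
      good0 := hφ₀
      BY := hBY
      cardB := hBc
      φ0Y := hφ₀Y
      top := hBtop
      cardU := by rw [hUc, ← hm]; exact h10
      hm := hm1
      ham := ham
      ha4 := ha4
      hβ := hβ }
  have hout : ∃ T' C φ', Outcome G H A U I T₀ φ₀ m T' C φ' := by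
    by_cases hex : ∃ s ∈ A \ T₀, (nb G T₀ s).card = 2
    · obtain ⟨s, hs, hs2⟩ := hex
      have hm2 : 2 ≤ m := by
        rw [← hs2, ← hT₀c]
        exact Finset.card_le_card nb_subset
      refine State.walk S hm2 m T₀ φ₀ s 0 (by omega) ?_
      refine
        { T0T := Finset.Subset.refl _
          TA := hT₀.sub
          cardT := by rw [hT₀c, Nat.add_zero]
          cut_le := by
            rw [Nat.add_zero, ← hT₀c]
            exact hT₀.cut_le
          good := hφ₀
          φY := fun t ht => (Finset.mem_sdiff.1 (hφ₀Y t ht)).1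
          ag := fun t _ => rfl
          hs := hs
          s2 := hs2
          oth := ?_ }
      intro v hv hvs
      refine ⟨nb_subset, ?_⟩
      have h1 := hT₀.le_two v hv
      by_contra hcon
      exact hvs (hT₀.uniq v hv s hs (by omega) hs2)
    · refine ⟨T₀, ∅, φ₀, ?_⟩
      refine
        { T0T := Finset.Subset.refl _
          TA := hT₀.sub
          CA := Finset.empty_subset _
          good := by rw [Finset.empty_union]; exact hφ₀
          φY := fun t ht => (Finset.mem_sdiff.1 (hφ₀Y t ht)).1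
          φC := fun t ht => absurd ht (Finset.notMem_empty t)
          ag := fun t _ => rfl
          oth := ?_
          cnt := ?_ }
      · intro v hv
        rw [Finset.empty_union] at hv
        refine ⟨nb_subset, ?_⟩
        have h1 := hT₀.le_two v hv
        by_contra hcon
        exact hex ⟨v, hv, by omega⟩
      · left
        refine ⟨Finset.card_empty, ?_⟩
        rw [Finset.empty_union, ← hT₀c]
        exact hT₀.cut_le
  obtain ⟨T', C, φ', o⟩ := hout
  exact o.finish S hT₀.inner hcase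

end Pool.Agent.H44.Cub
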