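import Mathlib

set_option autoImplicit false

/-!
# Numerical facts for the cubic case
-/

namespace Pool.Agent.H44.Cub

/-- The number of hosts used for `m` guests. -/
def g (m : ℕ) : ℕ := if m = 7 then 19 else min (m * (m + 1) / 2) ((5 * m + 1) / 2)

theorem g_of_le_four {k : ℕ} (h : k ≤ 4) : g k = k * (k + 1) / 2 := by
  interval_cases k <;> decide

theorem tri_ge {k : ℕ} (h : 5 ≤ k) : (5 * k + 1) / 2 ≤ k * (k + 1) / 2 := by
  apply Nat.div_le_div_right
  nlinarith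

theorem g_big {k : ℕ} (h : 5 ≤ k) (h7 : k ≠ 7) : g k = (5 * k + 1) / 2 := by
  unfold g
  rw [if_neg h7, min_eq_right (tri_ge h)]

theorem g_seven : g 7 = 19 := by decide

theorem g_le {m : ℕ} (h7 : m ≠ 7) : 2 * g m ≤ 5 * m + 1 := by
  unfold g
  rw [if_neg h7]
  have : min (m * (m + 1) / 2) ((5 * m + 1) / 2) ≤ (5 * m + 1) / 2 := min_le_right _ _
  omega

theorem five_le_g {k : ℕ} (h : 5 ≤ k) : 5 * k ≤ 2 * g k := by
  by_cases h7 : k = 7
  · subst h7
    decide
  · rw [g_big h h7]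
    omega

theorem g_succ (m : ℕ) : g m + 1 ≤ g (m + 1) := by
  rcases Nat.lt_or_ge m 8 with h | h
  · interval_cases m <;> decide
  · rw [g_big (by omega) (by omega), g_big (by omega) (by omega)]
    omega

theorem g_add (n j : ℕ) : g n + j ≤ g (n + j) := by
  induction j with
  | zero => rfl
  | succ j ih =>
    have := g_succ (n + j)
    rw [← Nat.add_assoc n j 1]
    omega

theorem g_mono {n k : ℕ} (h : n ≤ k) : g n ≤ g k := by
  have := g_add n (k - n)
  rw [Nat.add_sub_cancel' h] at this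
  omega

theorem le_g (k : ℕ) : k ≤ g k := by
  have h := g_add 0 k
  rw [Nat.zero_add] at h
  have h0 : g 0 = 0 := by decide
  omega

theorem g_even {k N : ℕ} (h : 2 * N = 5 * k) : g k ≤ N := by
  have h7 : k ≠ 7 := by omega
  have := g_le h7
  omega

/-- The parameters of the second part. -/
theorem params {k a m D : ℕ} (hk : 5 ≤ k) (hka : k = a + m) (hm : 1 ≤ m) (hD : D ≤ a)
    (ha4 : 4 ≤ a) (ha6 : k = 6 → 5 ≤ a) (hfail : ¬ (2 * D + k ≤ g k ∧ 3 * D + 4 ≤ g k)) :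
    ∃ β, g k = a + β + g m ∧ 2 * m < k ∧ 3 * m ≤ a ∧
      (3 * a ≤ 2 * β + 1 ∨ (m = 7 ∧ 3 * a ≤ 2 * β + 3 ∧ 23 ≤ a)) ∧
      ((m = 1 ∧ 3 * a + 3 ≤ 2 * β) ∨ (2 ≤ m ∧ 3 * m + 2 ≤ a) ∨
        (a = 6 ∧ m = 2 ∧ β = 11) ∨ (a = 7 ∧ m = 2 ∧ β = 13) ∨ (a = 9 ∧ m = 3 ∧ β = 15) ∨
        (a = 10 ∧ m = 3 ∧ β = 17)) := by
  rcases Nat.lt_or_ge k 18 with h18 | h18
  · have hgk : ∃ N, g k = N := ⟨_, rfl⟩
    have hmk : m < k := by omega
    obtain rfl : a = k - m := by omega
    refine ⟨g k - (k - m) - g m, ?_⟩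
    interval_cases k <;> interval_cases m <;> simp (config := { decide := true }) [g] at hfail ⊢ <;>
      omega
  · have hgk : g k = (5 * k + 1) / 2 := g_big (by omega) (by omega)
    have h1 : 3 * k + 2 ≤ 4 * D := by
      by_contra hcon
      apply hfail
      rw [hgk]
      constructor <;> omega
    have h2 : 3 * m + 2 ≤ a := by omega
    have hgm : 2 * g m ≤ 5 * m + 3 := by
      by_cases h7 : m = 7
      · subst h7
        decide
      · have := g_le h7
        omega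
    refine ⟨g k - a - g m, by omega, by omega, by omega, ?_, ?_⟩
    · by_cases h7 : m = 7
      · right
        omega
      · left
        have := g_le h7
        omega
    · rcases Nat.lt_or_ge m 2 with h | h
      · left
        have hm1 : m = 1 := by omega
        subst hm1
        have : g 1 = 1 := by decide
        omega
      · right; left
        exact ⟨h, h2⟩

/-- The inequality behind the use of the marriage theorem. -/
theorem num_hall {a m β D : ℕ} (hD : D ≤ a) (ha4 : 4 ≤ a)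
    (hβ : 3 * a ≤ 2 * β + 1 ∨ (m = 7 ∧ 3 * a ≤ 2 * β + 3 ∧ 23 ≤ a))
    (hcase : (m = 1 ∧ 3 * a + 3 ≤ 2 * β) ∨ (2 ≤ m ∧ 3 * m + 2 ≤ a) ∨
        (a = 6 ∧ m = 2 ∧ β = 11) ∨ (a = 7 ∧ m = 2 ∧ β = 13) ∨ (a = 9 ∧ m = 3 ∧ β = 15) ∨
        (a = 10 ∧ m = 3 ∧ β = 17))
    {c n q p μ : ℕ}
    (hc : (c = 0 ∧ n ≤ m + 2) ∨ (c = 1 ∧ n ≤ m) ∨ (c = 2 ∧ n + 1 ≤ m))
    (hq : q ≤ n) (hqp : q ≤ 2 * p ∨ (m = 1 ∧ q ≤ 3)) (hp : 1 ≤ p)
    (hμ : (β + p) * μ ≤ a * D) : q + c + μ ≤ a := by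
  have hμ' : (β + p) * μ ≤ a * a := hμ.trans (Nat.mul_le_mul_left _ hD)
  by_contra hcon
  have hlow : a + 1 ≤ q + c + μ := by omega
  rcases hcase with ⟨hm1, h3⟩ | ⟨hm2, h3⟩ | h4 | h4 | h4 | h4
  · have hqc : q + c ≤ 3 := by omega
    have h5 : a - 2 ≤ μ := by omega
    have h6 : (β + p) * (a - 2) ≤ a * a := (Nat.mul_le_mul_left _ h5).trans hμ'
    have h7 : 3 * a + 5 ≤ 2 * (β + p) := by omega
    obtain ⟨b, rfl⟩ : ∃ b, a = b + 4 := ⟨a - 4, by omega⟩
    have h8 : b + 4 - 2 = b + 2 := by omega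
    rw [h8] at h6
    have h9 : (3 * (b + 4) + 5) * (b + 2) ≤ 2 * ((b + 4) * (b + 4)) := by
      calc (3 * (b + 4) + 5) * (b + 2) ≤ 2 * (β + p) * (b + 2) := Nat.mul_le_mul_right _ h7
        _ = 2 * ((β + p) * (b + 2)) := by ring
        _ ≤ 2 * ((b + 4) * (b + 4)) := Nat.mul_le_mul_left _ h6
    nlinarith
  · have hqp' : q ≤ 2 * p := by omega
    obtain ⟨e, rfl⟩ : ∃ e, a = 3 * m + 2 + e := ⟨a - (3 * m + 2), by omega⟩
    have hμz : ((β : ℤ) + p) * μ ≤ (3 * m + 2 + e) * (3 * m + 2 + e) := by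
      exact_mod_cast hμ'
    have hβz : (3 : ℤ) * (3 * m + 2 + e) ≤ 2 * β + 1 ∨
        ((m : ℤ) = 7 ∧ (3 : ℤ) * (3 * m + 2 + e) ≤ 2 * β + 3) := by
      rcases hβ with h | ⟨h, h', _⟩
      · left; exact_mod_cast h
      · right; exact ⟨by exact_mod_cast h, by exact_mod_cast h'⟩
    have hqz : (q : ℤ) ≤ 2 * p := by exact_mod_cast hqp'
    have hlz : (3 * m + 2 + e : ℤ) + 1 ≤ q + c + μ := by exact_mod_cast hlow
    have hm2z : (2 : ℤ) ≤ m := by exact_mod_cast hm2
    have hq0 : (0 : ℤ) ≤ q := by positivity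
    have he0 : (0 : ℤ) ≤ e := by positivity
    have hμ0 : (0 : ℤ) ≤ μ := by positivity
    have hp0 : (0 : ℤ) ≤ p := by positivity
    have hqn : (q : ℤ) ≤ n := by exact_mod_cast hq
    -- `x` is the number of hosts in question, decreasing in `q`
    have hmain : ∀ x y : ℤ, 0 ≤ x → x ≤ μ → y ≤ 2 * (β + p) →
        y * x ≤ 2 * ((3 * m + 2 + e) * (3 * m + 2 + e)) := by
      intro x y hx hxμ hy
      have hb0 : (0 : ℤ) ≤ β := by positivity
      calc y * x ≤ 2 * ((β : ℤ) + p) * x := mul_le_mul_of_nonneg_right hy hx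
        _ ≤ 2 * ((β : ℤ) + p) * μ := mul_le_mul_of_nonneg_left hxμ (by positivity)
        _ = 2 * (((β : ℤ) + p) * μ) := by ring
        _ ≤ _ := by linarith
    have hbound : (3 * (3 * m + 2 + e) - 1 + q : ℤ) * (3 * m + 2 + e + 1 - q - c) -
        (if m = 7 then 2 * (3 * m + 2 + e + 1 - q - c : ℤ) else 0) ≤
        2 * ((3 * m + 2 + e) * (3 * m + 2 + e)) := by
      have hx0 : (0 : ℤ) ≤ 3 * m + 2 + e + 1 - q - c := by
        rcases hc with ⟨h, h'⟩ | ⟨h, h'⟩ | ⟨h, h'⟩ <;> omega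
      split_ifs with h7
      · have h1 := hmain (3 * m + 2 + e + 1 - q - c) (3 * (3 * m + 2 + e) - 3 + q) hx0
          (by linarith) (by
            rcases hβz with h | ⟨_, h⟩
            · linarith
            · linarith)
        nlinarith
      · have h1 := hmain (3 * m + 2 + e + 1 - q - c) (3 * (3 * m + 2 + e) - 1 + q) hx0
          (by linarith) (by
            rcases hβz with h | ⟨h, _⟩
            · linarith
            · exact absurd (by exact_mod_cast h) h7)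
        linarith
    rcases hc with ⟨h, h'⟩ | ⟨h, h'⟩ | ⟨h, h'⟩
    · subst h
      have hq' : (q : ℤ) ≤ m + 2 := by
        have : (n : ℤ) ≤ m + 2 := by exact_mod_cast h'
        linarith
      obtain ⟨d, hd⟩ : ∃ d : ℤ, q = m + 2 - d := ⟨m + 2 - q, by ring⟩
      have hd0 : 0 ≤ d := by linarith
      have hdm : d ≤ m + 2 := by linarith
      split_ifs at hbound with h7
      · subst h7
        push_cast at *
        rw [hd] at hbound
        nlinarith
      · push_cast at hbound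
        rw [hd] at hbound
        nlinarith [mul_nonneg hd0 he0, mul_nonneg hd0 (sub_nonneg.2 hdm)]
    · subst h
      have hq' : (q : ℤ) ≤ m := by
        have : (n : ℤ) ≤ m := by exact_mod_cast h'
        linarith
      obtain ⟨d, hd⟩ : ∃ d : ℤ, q = m - d := ⟨m - q, by ring⟩
      have hd0 : 0 ≤ d := by linarith
      have hdm : d ≤ m := by linarith
      split_ifs at hbound with h7
      · subst h7
        push_cast at *
        rw [hd] at hbound
        nlinarith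
      · push_cast at hbound
        rw [hd] at hbound
        nlinarith [mul_nonneg hd0 he0, mul_nonneg hd0 (sub_nonneg.2 hdm)]
    · subst h
      have hq' : (q : ℤ) ≤ m - 1 := by
        have : (n : ℤ) + 1 ≤ m := by exact_mod_cast h'
        linarith
      obtain ⟨d, hd⟩ : ∃ d : ℤ, q = m - 1 - d := ⟨m - 1 - q, by ring⟩
      have hd0 : 0 ≤ d := by linarith
      have hdm : d ≤ m - 1 := by linarith
      split_ifs at hbound with h7
      · subst h7
        push_cast at *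
        rw [hd] at hbound
        nlinarith
      · push_cast at hbound
        rw [hd] at hbound
        nlinarith [mul_nonneg hd0 he0, mul_nonneg hd0 (sub_nonneg.2 hdm)]
  all_goals
    obtain ⟨rfl, rfl, rfl⟩ := h4
    have hgen : ∀ p0 μ0 : ℕ, p0 ≤ p → μ0 ≤ μ → _ := fun p0 μ0 h1 h2 =>
      (Nat.mul_le_mul (Nat.add_le_add_left h1 _) h2).trans hμ'
    have hqp' : q ≤ 2 * p := by omega
    have hq5 : q ≤ 5 := by omega
    rcases hc with ⟨rfl, h'⟩ | ⟨rfl, h'⟩ | ⟨rfl, h'⟩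
    all_goals
      interval_cases q
      all_goals first
        | omega
        | (have h1 := hgen 1 μ (by omega) le_rfl; omega)
        | (have h1 := hgen 2 μ (by omega) le_rfl; omega)

/-- The host for `u` can be chosen with few neighbours in `I`. -/
theorem num_v {a m D o M v : ℕ} (hD : D ≤ a) (h3 : 3 * m ≤ a) (hm : 2 ≤ m)
    (ho : a + m ≤ 2 * o) (hM : 3 * a + m ≤ 2 * M) (h : (M - o) * v + o * a + a ≤ a * D) :
    2 * v + m + 2 ≤ a := by
  have h' : (M - o) * v + o * a + a ≤ a * a := h.trans (Nat.mul_le_mul_left _ hD)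
  obtain ⟨d, hd⟩ : ∃ d, M - o = d := ⟨_, rfl⟩
  rw [hd] at h'
  have hd' : 3 * a + m ≤ 2 * o + 2 * d := by omega
  by_contra hcon
  have hv : a ≤ 2 * v + m + 1 := by omega
  zify at h' hd' hv ho h3 hm
  obtain ⟨y, hy⟩ : ∃ y : ℤ, 2 * (o : ℤ) = a + m + y := ⟨2 * o - a - m, by ring⟩
  have hy0 : 0 ≤ y := by linarith
  have hd0 : (0 : ℤ) ≤ d := by positivity
  have hv0 : (0 : ℤ) ≤ v := by positivity
  have e1 : (2 * a - y) * (a - m - 1) ≤ (2 * d : ℤ) * (2 * v) := by
    calc (2 * a - y) * (a - m - 1) ≤ (2 * d : ℤ) * (a - m - 1) :=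
          mul_le_mul_of_nonneg_right (by linarith) (by linarith)
      _ ≤ (2 * d : ℤ) * (2 * v) := mul_le_mul_of_nonneg_left (by linarith) (by positivity)
  have e2 : (2 * o : ℤ) * a = (a + m + y) * a := by rw [hy]
  nlinarith [mul_nonneg hy0 (by linarith : (0 : ℤ) ≤ m)]

/-- The images of `T₀` have few neighbours in `I`. -/
theorem num_l {a m β D o l : ℕ} (hD : D ≤ a) (h3 : 3 * m ≤ a) (hm : 2 ≤ m)
    (hβ : 3 * a ≤ 2 * β + 1 ∨ (m = 7 ∧ 3 * a ≤ 2 * β + 3 ∧ 23 ≤ a))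
    (ho : a + m ≤ 2 * o) (h : (β - o - 2) * l + o * a + a ≤ a * D) :
    2 * l + 2 ≤ a + m := by
  have h' : (β - o - 2) * l + o * a + a ≤ a * a := h.trans (Nat.mul_le_mul_left _ hD)
  obtain ⟨e, he⟩ : ∃ e, β - o - 2 = e := ⟨_, rfl⟩
  rw [he] at h'
  have he' : β ≤ o + 2 + e := by omega
  by_contra hcon
  have hl : a + m ≤ 2 * l + 1 := by omega
  zify at h' he' hl ho h3 hm
  obtain ⟨y, hy⟩ : ∃ y : ℤ, 2 * (o : ℤ) = a + m + y := ⟨2 * o - a - m, by ring⟩
  have hy0 : 0 ≤ y := by linarith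
  have he0 : (0 : ℤ) ≤ e := by positivity
  have e2 : (2 * o : ℤ) * a = (a + m + y) * a := by rw [hy]
  have e3 : (2 * e : ℤ) * (a + m - 1) ≤ (2 * e : ℤ) * (2 * l) :=
    mul_le_mul_of_nonneg_left (by linarith) (by positivity)
  have e4 : 0 ≤ y * ((a : ℤ) + 1 - m) := mul_nonneg hy0 (by linarith)
  rcases hβ with hb | ⟨h7, hb, ha⟩
  · zify at hb
    have e5 : (2 * a - 5 - m - y) * (a + m - 1) ≤ (2 * e : ℤ) * (a + m - 1) :=
      mul_le_mul_of_nonneg_right (by linarith) (by linarith)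
    have e6 : 0 < ((m : ℤ) - 1) * (3 * a - m - 5) := mul_pos (by linarith) (by linarith)
    nlinarith
  · subst h7
    zify at hb ha
    push_cast at *
    have e5 : (2 * a - 7 - 7 - y) * (a + 7 - 1) ≤ (2 * e : ℤ) * (a + 7 - 1) :=
      mul_le_mul_of_nonneg_right (by linarith) (by linarith)
    nlinarith

/-- The last case does not occur at the start of the walk. -/
theorem num_j {a m β D o l : ℕ} (hD : D ≤ a) (h3 : 3 * m ≤ a) (hm : 1 ≤ m)
    (hβ : 3 * a ≤ 2 * β + 1 ∨ (m = 7 ∧ 3 * a ≤ 2 * β + 3 ∧ 23 ≤ a))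
    (ho : a + 3 * m ≤ 2 * o) (h : (β - o - 2) * l + o * a + a ≤ a * D) (hl : a ≤ 2 * l) :
    False := by
  have h' : (β - o - 2) * l + o * a + a ≤ a * a := h.trans (Nat.mul_le_mul_left _ hD)
  obtain ⟨e, he⟩ : ∃ e, β - o - 2 = e := ⟨_, rfl⟩
  rw [he] at h'
  have he' : β ≤ o + 2 + e := by omega
  have h1 : e * a ≤ e * (2 * l) := Nat.mul_le_mul_left _ hl
  have h2 : (e + 2 * o + 2) * a ≤ 2 * a * a := by nlinarith
  have h4 : e + 2 * o + 2 ≤ 2 * a := Nat.le_of_mul_le_mul_right h2 (by omega)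
  omega

end Pool.Agent.H44.Cub
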