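import Pool.Agent.H44.Cub.Walk

set_option autoImplicit false
set_option linter.unusedSectionVars false

/-!
# One step of the walk
-/

namespace Pool.Agent.H44.Cub

open Finset

variable {V W : Type*} [DecidableEq V] [DecidableEq W] {G : SimpleGraph V} {H : SimpleGraph W}
  [DecidableRel G.Adj] [DecidableRel H.Adj]

variable {A : Finset V} {U I B : Finset W} {T₀ : Finset V} {φ₀ : V → W} {a m β Δ : ℕ}

variable {T : Finset V} {φ : V → W} {s : V} {j : ℕ}

theorem State.free_out (hB : ∀ i ∈ I, ∃ t ∈ nb G T s, H.Adj (φ t) i) {z : W}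
    (hz : z ∈ freeHosts G H U T φ s) : z ∈ U \ I := by
  have hz' := mem_freeHosts.1 hz
  refine Finset.mem_sdiff.2 ⟨hz'.1, fun hzI => ?_⟩
  obtain ⟨t, ht, hh⟩ := hB z hzI
  exact hz'.2.2 t ht hh

theorem State.out_le (S : Setup G H A U I B T₀ φ₀ a m β Δ)
    (st : State G H A U I T₀ φ₀ m T φ s j) : (nb G (A \ insert s T) s).card ≤ 1 := by
  have hdis : Disjoint (nb G T s) (nb G (A \ insert s T) s) := by
    rw [Finset.disjoint_left]
    intro x hx hx'
    exact (Finset.mem_sdiff.1 (nb_subset hx')).2 (Finset.mem_insert_of_mem (nb_subset hx))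
  have hsub : nb G T s ∪ nb G (A \ insert s T) s ⊆ nb G A s := by
    intro x hx
    rcases Finset.mem_union.1 hx with hx | hx
    · exact nb_mono st.TA hx
    · exact nb_mono Finset.sdiff_subset hx
  have := (Finset.card_le_card hsub).trans (S.deg s A)
  rw [Finset.card_union_of_disjoint hdis, st.s2] at this
  omega

theorem State.sub_insert (st : State G H A U I T₀ φ₀ m T φ s j) : insert s T ⊆ A := by
  intro x hx
  rcases Finset.mem_insert.1 hx with h | h
  · rw [h]; exact (Finset.mem_sdiff.1 st.hs).1
  · exact st.TA h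

theorem State.out_val (hB : ∀ i ∈ I, ∃ t ∈ nb G T s, H.Adj (φ t) i)
    (st : State G H A U I T₀ φ₀ m T φ s j) {z : W}
    (hz : z ∈ freeHosts G H U T φ s) : ∀ t ∈ insert s T, Function.update φ s z t ∈ U \ I := by
  have hsT : s ∉ T := (Finset.mem_sdiff.1 st.hs).2
  intro t ht
  rcases Finset.mem_insert.1 ht with h | h
  · rw [h, upd_self]
    exact State.free_out hB hz
  · rw [upd_of_mem hsT h]
    exact st.φY t h

/-- Case (a): the exceptional vertex has no further neighbour. -/
theorem State.outcome_closed (hB : ∀ i ∈ I, ∃ t ∈ nb G T s, H.Adj (φ t) i)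
    (st : State G H A U I T₀ φ₀ m T φ s j) {z : W} (hz : z ∈ freeHosts G H U T φ s)
    (h0 : nb G (A \ insert s T) s = ∅) :
    Outcome G H A U I T₀ φ₀ m (insert s T) ∅ (Function.update φ s z) := by
  have hsT : s ∉ T := (Finset.mem_sdiff.1 st.hs).2
  have hnadj : ∀ v ∈ A \ insert s T, ¬ G.Adj s v := by
    intro v hv hsv
    have : v ∈ nb G (A \ insert s T) s := mem_nb.2 ⟨hv, hsv⟩
    rw [h0] at this
    exact Finset.notMem_empty v this
  refine
    { T0T := st.T0T.trans (Finset.subset_insert _ _)
      TA := st.sub_insert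
      CA := Finset.empty_subset _
      good := ?_
      φY := State.out_val hB st hz
      φC := fun t ht => absurd ht (Finset.notMem_empty t)
      ag := ?_
      oth := ?_
      cnt := ?_ }
  · rw [Finset.empty_union]
    exact st.good_out hz
  · intro t ht
    rw [upd_of_mem hsT (st.T0T ht)]
    exact st.ag t ht
  · intro v hv
    rw [Finset.empty_union] at hv
    rw [nb_insert_of_not_adj (hnadj v hv)]
    rw [sdiff_insert_eq] at hv
    exact st.oth v (Finset.mem_of_mem_erase hv) (Finset.ne_of_mem_erase hv)
  · left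
    refine ⟨Finset.card_empty, ?_⟩
    rw [Finset.empty_union]
    have := st.rest_sub (R := A \ insert s T) (T' := insert s T)
      (by rw [sdiff_insert_eq]) (fun v hv => nb_insert_of_not_adj (hnadj v hv))
    omega

/-- Case (b): the further neighbour becomes the exceptional vertex. -/
theorem State.next (hB : ∀ i ∈ I, ∃ t ∈ nb G T s, H.Adj (φ t) i)
    (st : State G H A U I T₀ φ₀ m T φ s j) {z : W} (hz : z ∈ freeHosts G H U T φ s) {u : V}
    (hu : nb G (A \ insert s T) s = {u}) (hu1 : (nb G T u).card = 1) :
    State G H A U I T₀ φ₀ m (insert s T) (Function.update φ s z) u (j + 1) := by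
  have hsT : s ∉ T := (Finset.mem_sdiff.1 st.hs).2
  have huu : u ∈ nb G (A \ insert s T) s := by
    rw [hu]; exact Finset.mem_singleton_self u
  have huA := (mem_nb.1 huu).1
  have hsu := (mem_nb.1 huu).2
  have hnadj : ∀ v ∈ A \ insert s T, v ≠ u → ¬ G.Adj s v := by
    intro v hv hvu hsv
    have : v ∈ nb G (A \ insert s T) s := mem_nb.2 ⟨hv, hsv⟩
    rw [hu] at this
    exact hvu (Finset.mem_singleton.1 this)
  refine
    { T0T := st.T0T.trans (Finset.subset_insert _ _)
      TA := st.sub_insert
      cardT := ?_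
      cut_le := ?_
      good := st.good_out hz
      φY := State.out_val hB st hz
      ag := ?_
      hs := huA
      s2 := ?_
      oth := ?_ }
  · rw [Finset.card_insert_of_notMem hsT, st.cardT]
    omega
  · have h1 := cut_insert (G := G) st.hs
    have h2 := st.cut_le
    rw [hu, Finset.card_singleton, st.s2] at h1
    omega
  · intro t ht
    rw [upd_of_mem hsT (st.T0T ht)]
    exact st.ag t ht
  · rw [nb_insert_card hsT, if_pos hsu, hu1]
  · intro v hv hvu
    rw [nb_insert_of_not_adj (hnadj v hv hvu)]
    rw [sdiff_insert_eq] at hv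
    exact st.oth v (Finset.mem_of_mem_erase hv) (Finset.ne_of_mem_erase hv)

/-- Case (c): the further neighbour can go into the independent set. -/
theorem State.outcome_c (hB : ∀ i ∈ I, ∃ t ∈ nb G T s, H.Adj (φ t) i)
    (st : State G H A U I T₀ φ₀ m T φ s j) {z : W} (hz : z ∈ freeHosts G H U T φ s) {u : V}
    (hu : nb G (A \ insert s T) s = {u}) (hu0 : nb G T u = ∅) {i : W} (hi : i ∈ I)
    (hzi : ¬ H.Adj z i) :
    Outcome G H A U I T₀ φ₀ m (insert s T) {u}
      (Function.update (Function.update φ s z) u i) := by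
  have hsT : s ∉ T := (Finset.mem_sdiff.1 st.hs).2
  have huu : u ∈ nb G (A \ insert s T) s := by
    rw [hu]; exact Finset.mem_singleton_self u
  have huA := (mem_nb.1 huu).1
  have huT : u ∉ insert s T := (Finset.mem_sdiff.1 huA).2
  have hnadj : ∀ v ∈ A \ insert s T, v ≠ u → ¬ G.Adj s v := by
    intro v hv hvu hsv
    have : v ∈ nb G (A \ insert s T) s := mem_nb.2 ⟨hv, hsv⟩
    rw [hu] at this
    exact hvu (Finset.mem_singleton.1 this)
  have heq : ({u} : Finset V) ∪ insert s T = insert u (insert s T) :=
    (Finset.insert_eq u (insert s T)).symm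
  have hmem : ∀ v ∈ A \ insert u (insert s T), v ∈ A \ insert s T ∧ v ≠ u := by
    intro v hv
    rw [sdiff_insert_eq] at hv
    exact ⟨Finset.mem_of_mem_erase hv, Finset.ne_of_mem_erase hv⟩
  refine
    { T0T := st.T0T.trans (Finset.subset_insert _ _)
      TA := st.sub_insert
      CA := Finset.singleton_subset_iff.2 huA
      good := ?_
      φY := ?_
      φC := ?_
      ag := ?_
      oth := ?_
      cnt := ?_ }
  · rw [heq]
    refine (st.good_out hz).insert huT ?_ ?_
    · intro x hx he
      exact (Finset.mem_sdiff.1 (State.out_val hB st hz x hx)).2 (he ▸ hi)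
    · intro x hx hux
      rcases Finset.mem_insert.1 hx with h | h
      · rw [h, upd_self]
        exact hzi
      · have : x ∈ nb G T u := mem_nb.2 ⟨h, hux⟩
        rw [hu0] at this
        exact absurd this (Finset.notMem_empty x)
  · intro t ht
    rw [upd_of_mem huT ht]
    exact State.out_val hB st hz t ht
  · intro t ht
    rw [Finset.mem_singleton.1 ht, upd_self]
    exact hi
  · intro t ht
    rw [upd_of_mem huT (Finset.mem_insert_of_mem (st.T0T ht)), upd_of_mem hsT (st.T0T ht)]
    exact st.ag t ht
  · intro v hv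
    rw [heq] at hv
    obtain ⟨h1, h2⟩ := hmem v hv
    rw [nb_insert_of_not_adj (hnadj v h1 h2)]
    rw [sdiff_insert_eq] at h1
    exact st.oth v (Finset.mem_of_mem_erase h1) (Finset.ne_of_mem_erase h1)
  · right; left
    refine ⟨Finset.card_singleton u, ?_⟩
    rw [heq]
    have := st.rest_sub (R := A \ insert u (insert s T)) (T' := insert s T) (by
      intro v hv
      have := (hmem v hv).1
      rw [sdiff_insert_eq] at this
      exact this) (fun v hv => nb_insert_of_not_adj (hnadj v (hmem v hv).1 (hmem v hv).2))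
    omega

end Pool.Agent.H44.Cub
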