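import Pool.Agent.H44.Cub.Step

set_option autoImplicit false
set_option linter.unusedSectionVars false

/-!
# The last case of the walk
-/

namespace Pool.Agent.H44.Cub

open Finset

variable {V W : Type*} [DecidableEq V] [DecidableEq W] {G : SimpleGraph V} {H : SimpleGraph W}
  [DecidableRel G.Adj] [DecidableRel H.Adj]

variable {A : Finset V} {U I B : Finset W} {T₀ : Finset V} {φ₀ : V → W} {a m β Δ : ℕ}

variable {T : Finset V} {φ : V → W} {s : V} {j : ℕ}

theorem State.d_cover (S : Setup G H A U I B T₀ φ₀ a m β Δ)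
    (hB : ∀ i ∈ I, ∃ t ∈ nb G T s, H.Adj (φ t) i) :
    a ≤ ∑ y ∈ (nb G T s).image φ, (nb H I y).card := by
  have h1 : I ⊆ ((nb G T s).image φ).biUnion (fun y => nb H I y) := by
    intro i hi
    obtain ⟨t, ht, hh⟩ := hB i hi
    exact Finset.mem_biUnion.2 ⟨φ t, Finset.mem_image_of_mem _ ht, mem_nb.2 ⟨hi, hh⟩⟩
  have h2 := (Finset.card_le_card h1).trans Finset.card_biUnion_le
  rw [S.cardI] at h2
  exact h2

theorem State.d_sum (S : Setup G H A U I B T₀ φ₀ a m β Δ)
    (hB : ∀ i ∈ I, ∃ t ∈ nb G T s, H.Adj (φ t) i)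
    (st : State G H A U I T₀ φ₀ m T φ s j)
    (hd : ∀ z ∈ freeHosts G H U T φ s, ∀ i ∈ I, H.Adj z i) {E : Finset W}
    (hE : E ⊆ U \ I) (hEO : Disjoint E (freeHosts G H U T φ s))
    (hED : Disjoint E ((nb G T s).image φ)) {c : ℕ} (hc : ∀ y ∈ E, c ≤ (nb H I y).card) :
    E.card * c + (freeHosts G H U T φ s).card * a + a ≤ a * Δ := by
  refine S.disj_le hE (fun z hz => State.free_out hB hz) ?_ hEO hED ?_ hc ?_
    (State.d_cover S hB)
  · intro y hy
    obtain ⟨t, ht, rfl⟩ := Finset.mem_image.1 hy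
    exact st.φY t (nb_subset ht)
  · rw [Finset.disjoint_left]
    intro z hz hz'
    obtain ⟨t, ht, he⟩ := Finset.mem_image.1 hz'
    exact (mem_freeHosts.1 hz).2.1 t (nb_subset ht) he
  · intro z hz
    have h1 : I ⊆ nb H I z := fun i hi => mem_nb.2 ⟨hi, hd z hz i hi⟩
    have h2 := Finset.card_le_card h1
    rw [S.cardI] at h2
    exact h2

/-- The numerical part of case (d). -/
theorem State.d_num (S : Setup G H A U I B T₀ φ₀ a m β Δ)
    (hB : ∀ i ∈ I, ∃ t ∈ nb G T s, H.Adj (φ t) i)
    (st : State G H A U I T₀ φ₀ m T φ s j) (hm2 : 2 ≤ m)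
    (hd : ∀ z ∈ freeHosts G H U T φ s, ∀ i ∈ I, H.Adj z i) :
    1 ≤ j ∧ (freeHosts G H U T φ s).Nonempty ∧ ∃ y ∈ U \ I, y ∉ freeHosts G H U T φ s ∧
      (∀ t ∈ T, φ t ≠ y) ∧ ∀ t ∈ T₀, (nb H I y).card + (nb H I (φ₀ t)).card + 2 ≤ a := by
  obtain ⟨O, hO⟩ : ∃ O, freeHosts G H U T φ s = O := ⟨_, rfl⟩
  have hcardO := st.freeHosts_card S
  have hdsum := fun {E : Finset W} h1 h2 h3 {c : ℕ} h4 =>
    State.d_sum S hB st hd (E := E) h1 h2 h3 (c := c) h4
  have hOfree : ∀ z, z ∈ O → z ∈ U \ I := fun z hz => State.free_out hB (hO ▸ hz)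
  have hOT : ∀ z, z ∈ O → ∀ t ∈ T, φ t ≠ z := fun z hz =>
    (mem_freeHosts.1 (hO ▸ hz : z ∈ freeHosts G H U T φ s)).2.1
  rw [hO] at hcardO hdsum ⊢
  have hrest := st.rest
  have hU := S.cardU
  have hm := S.hm
  have ham := S.ham
  have ha4 := S.ha4
  have hDa := S.ha
  -- the number of free hosts
  have ho1 : a + 3 * m ≤ 2 * O.card + 2 * j := by omega
  have hoa : O.card + 1 ≤ a := by
    have h := hdsum (E := ∅) (Finset.empty_subset _) (Finset.disjoint_empty_left _)
      (Finset.disjoint_empty_left _) (c := 0) (fun y hy => absurd hy (Finset.notMem_empty y))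
    have h' : (O.card + 1) * a ≤ a * a := by
      have := Nat.mul_le_mul_left a hDa
      rw [Finset.card_empty] at h
      nlinarith
    exact Nat.le_of_mul_le_mul_right h' (by omega)
  -- the image of `T`
  have himg : T.image φ ⊆ U \ I := by
    intro y hy
    obtain ⟨t, ht, rfl⟩ := Finset.mem_image.1 hy
    exact st.φY t ht
  have himgc : (T.image φ).card ≤ m + j := Finset.card_image_le.trans (le_of_eq st.cardT)
  set M := (U \ I) \ T.image φ with hM
  have hMc : 3 * a + 3 * m ≤ 2 * M.card + 2 * j := by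
    have h1 : M.card + (T.image φ).card = (U \ I).card := by
      rw [hM, Finset.card_sdiff_of_subset himg]
      have := Finset.card_le_card himg
      omega
    have h2 : (U \ I).card + a = U.card := by
      rw [Finset.card_sdiff_of_subset S.IU, S.cardI]
      have := Finset.card_le_card S.IU
      rw [S.cardI] at this
      omega
    omega
  have hOM : O ⊆ M := by
    intro z hz
    refine Finset.mem_sdiff.2 ⟨hOfree z hz, fun h => ?_⟩
    obtain ⟨t, ht, he⟩ := Finset.mem_image.1 h
    exact hOT z hz t ht he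
  have hMOne : (M \ O).Nonempty := by
    rw [← Finset.card_pos, Finset.card_sdiff_of_subset hOM]
    omega
  obtain ⟨y, hy, hymin⟩ := Finset.exists_min_image (M \ O) (fun y => (nb H I y).card) hMOne
  have hy' := Finset.mem_sdiff.1 hy
  have hyM := Finset.mem_sdiff.1 hy'.1
  have hv : 2 * (nb H I y).card + m + 2 ≤ a := by
    have h := hdsum (E := M \ O) (Finset.sdiff_subset.trans Finset.sdiff_subset)
      Finset.sdiff_disjoint (by
        rw [Finset.disjoint_left]
        intro x hx hx'
        have h1 := (Finset.mem_sdiff.1 (Finset.mem_sdiff.1 hx).1).2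
        exact h1 (Finset.image_subset_image nb_subset hx')) (c := (nb H I y).card) hymin
    rw [Finset.card_sdiff_of_subset hOM] at h
    exact num_v hDa ham hm2 (by omega) (by omega) h
  -- the image of `T₀`
  have hT0ne : T₀.Nonempty := by
    rw [← Finset.card_pos, S.cardT0]
    omega
  obtain ⟨t₁, ht₁, ht₁max⟩ :=
    Finset.exists_max_image T₀ (fun t => (nb H I (φ₀ t)).card) hT0ne
  have hl : (β - O.card - 2) * (nb H I (φ₀ t₁)).card + O.card * a + a ≤ a * Δ := by
    have h := hdsum (E := B \ (O ∪ (nb G T s).image φ))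
      (Finset.sdiff_subset.trans S.BY)
      (by
        rw [Finset.disjoint_left]
        intro x hx hx'
        exact (Finset.mem_sdiff.1 hx).2 (Finset.mem_union_left _ hx'))
      (by
        rw [Finset.disjoint_left]
        intro x hx hx'
        exact (Finset.mem_sdiff.1 hx).2 (Finset.mem_union_right _ hx'))
      (c := (nb H I (φ₀ t₁)).card)
      (fun b hb => S.top b (Finset.mem_sdiff.1 hb).1 _ (S.φ0Y t₁ ht₁))
    have h1 : β - O.card - 2 ≤ (B \ (O ∪ (nb G T s).image φ)).card := by
      have h2 := Finset.le_card_sdiff (O ∪ (nb G T s).image φ) B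
      have h3 := Finset.card_union_le O ((nb G T s).image φ)
      have h4 : ((nb G T s).image φ).card ≤ 2 :=
        Finset.card_image_le.trans (le_of_eq st.s2)
      have h5 := S.cardB
      omega
    have h6 := Nat.mul_le_mul_right (nb H I (φ₀ t₁)).card h1
    omega
  have hl2 : 1 ≤ j := by
    by_contra hj
    have hj0 : j = 0 := by omega
    have hTeq : T₀ = T := by
      refine Finset.eq_of_subset_of_card_le st.T0T ?_
      rw [st.cardT, S.cardT0, hj0, Nat.add_zero]
    refine num_j hDa ham hm S.hβ (by omega) hl ?_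
    refine (State.d_cover S hB).trans ?_
    have h1 : ∀ y ∈ (nb G T s).image φ, (nb H I y).card ≤ (nb H I (φ₀ t₁)).card := by
      intro y hy
      obtain ⟨t, ht, rfl⟩ := Finset.mem_image.1 hy
      have ht0 : t ∈ T₀ := by
        rw [hTeq]
        exact nb_subset ht
      rw [st.ag t ht0]
      exact ht₁max t ht0
    calc ∑ y ∈ (nb G T s).image φ, (nb H I y).card
        ≤ ∑ _y ∈ (nb G T s).image φ, (nb H I (φ₀ t₁)).card := Finset.sum_le_sum h1
      _ = ((nb G T s).image φ).card * (nb H I (φ₀ t₁)).card := by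
          rw [Finset.sum_const, smul_eq_mul]
      _ ≤ 2 * (nb H I (φ₀ t₁)).card :=
          Nat.mul_le_mul_right _ (Finset.card_image_le.trans (le_of_eq st.s2))
  have hlb : 2 * (nb H I (φ₀ t₁)).card + 2 ≤ a + m :=
    num_l hDa ham hm2 S.hβ (by omega) hl
  refine ⟨hl2, ?_, y, hyM.1, hy'.2, ?_, ?_⟩
  · rw [← Finset.card_pos]
    omega
  · intro t ht he
    exact hyM.2 (Finset.mem_image.2 ⟨t, ht, he⟩)
  · intro t ht
    have h1 : (nb H I (φ₀ t)).card ≤ (nb H I (φ₀ t₁)).card := ht₁max t ht
    omega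

/-- Case (d): all free hosts are joined to the whole independent set. -/
theorem State.outcome_d [Nonempty W] (S : Setup G H A U I B T₀ φ₀ a m β Δ)
    (hB : ∀ i ∈ I, ∃ t ∈ nb G T s, H.Adj (φ t) i)
    (st : State G H A U I T₀ φ₀ m T φ s j) (hm2 : 2 ≤ m)
    (hd : ∀ z ∈ freeHosts G H U T φ s, ∀ i ∈ I, H.Adj z i) {u : V}
    (hu : nb G (A \ insert s T) s = {u}) (hu0 : nb G T u = ∅) :
    ∃ T' C φ', Outcome G H A U I T₀ φ₀ m T' C φ' := by
  obtain ⟨hj1, ⟨z, hz⟩, y, hyY, hyO, hyT, hy2⟩ := State.d_num S hB st hm2 hd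
  have hsT : s ∉ T := (Finset.mem_sdiff.1 st.hs).2
  have huu : u ∈ nb G (A \ insert s T) s := by
    rw [hu]; exact Finset.mem_singleton_self u
  have huA' := (mem_nb.1 huu).1
  have hsu := (mem_nb.1 huu).2
  have huA : u ∈ A := (Finset.mem_sdiff.1 huA').1
  have huT : u ∉ insert s T := (Finset.mem_sdiff.1 huA').2
  have hnadj : ∀ v ∈ A \ insert s T, v ≠ u → ¬ G.Adj s v := by
    intro v hv hvu hsv
    have : v ∈ nb G (A \ insert s T) s := mem_nb.2 ⟨hv, hsv⟩
    rw [hu] at this
    exact hvu (Finset.mem_singleton.1 this)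
  have hmem : ∀ v ∈ A \ insert u (insert s T), v ∈ A \ insert s T ∧ v ≠ u := by
    intro v hv
    rw [sdiff_insert_eq] at hv
    exact ⟨Finset.mem_of_mem_erase hv, Finset.ne_of_mem_erase hv⟩
  have hmem2 : ∀ v ∈ A \ insert u (insert s T), v ∈ (A \ T).erase s := by
    intro v hv
    have := (hmem v hv).1
    rw [sdiff_insert_eq] at this
    exact this
  -- the neighbours of `z` are the elements of `I`
  have hzN : I = nb H U z := by
    refine Finset.eq_of_subset_of_card_le (fun i hi => mem_nb.2 ⟨S.IU hi, hd z hz i hi⟩) ?_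
    rw [S.cardI]
    exact (S.hmax z (mem_freeHosts.1 hz).1).trans S.ha
  have hzy : ¬ H.Adj z y := by
    intro h
    have h1 := Finset.mem_sdiff.1 hyY
    apply h1.2
    rw [hzN]
    exact mem_nb.2 ⟨h1.1, h⟩
  set φ₁ := Function.update φ s z with hφ₁
  have hgood1 : Good G H (insert s T) φ₁ := st.good_out hz
  have hval1 : ∀ t ∈ insert s T, φ₁ t ∈ U \ I := State.out_val hB st hz
  set φ₂ := Function.update φ₁ u y with hφ₂
  have hgood2 : Good G H (insert u (insert s T)) φ₂ := by
    refine hgood1.insert huT ?_ ?_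
    · intro x hx he
      rcases Finset.mem_insert.1 hx with h | h
      · rw [h, hφ₁, upd_self] at he
        exact hyO (he ▸ hz)
      · rw [hφ₁, upd_of_mem hsT h] at he
        exact hyT x h he
    · intro x hx hux
      rcases Finset.mem_insert.1 hx with h | h
      · rw [h, hφ₁, upd_self]
        exact hzy
      · have : x ∈ nb G T u := mem_nb.2 ⟨h, hux⟩
        rw [hu0] at this
        exact absurd this (Finset.notMem_empty x)
  have hval2 : ∀ t ∈ insert u (insert s T), φ₂ t ∈ U \ I := by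
    intro t ht
    rcases Finset.mem_insert.1 ht with h | h
    · rw [h, hφ₂, upd_self]
      exact hyY
    · rw [hφ₂, upd_of_mem huT h]
      exact hval1 t h
  have hφ2T : ∀ t ∈ T, φ₂ t = φ t := by
    intro t ht
    rw [hφ₂, upd_of_mem huT (Finset.mem_insert_of_mem ht), hφ₁, upd_of_mem hsT ht]
  set C := nb G (A \ insert u (insert s T)) u with hC
  have hCsub : C ⊆ A \ insert u (insert s T) := nb_subset
  have hCc : C.card ≤ 2 := by
    have h1 : s ∉ C := fun h => (Finset.mem_sdiff.1 (hCsub h)).2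
      (Finset.mem_insert_of_mem (Finset.mem_insert_self _ _))
    have h2 : insert s C ⊆ nb G A u := by
      intro x hx
      rcases Finset.mem_insert.1 hx with h | h
      · rw [h]
        exact mem_nb.2 ⟨(Finset.mem_sdiff.1 st.hs).1, hsu.symm⟩
      · exact nb_mono Finset.sdiff_subset h
    have h3 := (Finset.card_le_card h2).trans (S.deg u A)
    rw [Finset.card_insert_of_notMem h1] at h3
    omega
  have hoth : ∀ v ∈ A \ insert u (insert s T), nb G T v ⊆ T₀ ∧ (nb G T v).card ≤ 1 := by
    intro v hv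
    have h := hmem2 v hv
    exact st.oth v (Finset.mem_of_mem_erase h) (Finset.ne_of_mem_erase h)
  -- the hosts for `C`
  set L : V → Finset W := fun c =>
    I \ (nb H I y ∪ (nb G T c).biUnion (fun t => nb H I (φ t))) with hL
  have hLc : ∀ c ∈ C, 2 ≤ (L c).card := by
    intro c hc
    obtain ⟨h1, h2⟩ := hoth c (hCsub hc)
    have h3 := Finset.le_card_sdiff (nb H I y ∪ (nb G T c).biUnion (fun t => nb H I (φ t))) I
    have h4 := Finset.card_union_le (nb H I y) ((nb G T c).biUnion (fun t => nb H I (φ t)))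
    rw [S.cardI] at h3
    change 2 ≤ (I \ (nb H I y ∪ (nb G T c).biUnion (fun t => nb H I (φ t)))).card
    rcases (nb G T c).eq_empty_or_nonempty with h0 | ⟨t, ht⟩
    · rw [h0, Finset.biUnion_empty, Finset.card_empty] at h4
      rw [h0, Finset.biUnion_empty] at h3 ⊢
      have hT0ne : T₀.Nonempty := by
        rw [← Finset.card_pos, S.cardT0]
        omega
      obtain ⟨t, ht⟩ := hT0ne
      have := hy2 t ht
      omega
    · have h5 : nb G T c = {t} := by
        refine Finset.eq_singleton_iff_unique_mem.2 ⟨ht, fun x hx => ?_⟩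
        exact Finset.card_le_one.1 h2 x hx t ht
      rw [h5, Finset.singleton_biUnion] at h4
      rw [h5, Finset.singleton_biUnion] at h3 ⊢
      have h6 := hy2 t (h1 ht)
      rw [← st.ag t (h1 ht)] at h6
      omega
  obtain ⟨ψ, hψ1, hψ2⟩ := hall_on C L (by
    intro Q hQ
    rcases Q.eq_empty_or_nonempty with h0 | ⟨c, hc⟩
    · rw [h0]
      exact Nat.zero_le _
    · refine (Finset.card_le_card hQ).trans (hCc.trans ((hLc c (hQ hc)).trans ?_))
      exact Finset.card_le_card (Finset.subset_biUnion_of_mem L hc))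
  have hψI : ∀ c ∈ C, ψ c ∈ I := fun c hc => (Finset.mem_sdiff.1 (hψ2 c hc)).1
  have hψg : Good G H C ψ :=
    ⟨hψ1, fun x hx v hv _ => S.indI _ (hψI x hx) _ (hψI v hv)⟩
  have hTC : ∀ t ∈ insert u (insert s T), t ∉ C := fun t ht h =>
    (Finset.mem_sdiff.1 (hCsub h)).2 ht
  have hgood3 := hψg.union hgood2 hTC
    (by
      intro c hc t ht he
      exact (Finset.mem_sdiff.1 (hval2 t ht)).2 (he ▸ hψI c hc))
    (by
      intro c hc t ht hct hh
      have hcL := Finset.mem_sdiff.1 (hψ2 c hc)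
      rw [Finset.mem_union, not_or] at hcL
      rcases Finset.mem_insert.1 ht with h | h
      · rw [h, hφ₂, upd_self] at hh
        exact hcL.2.1 (mem_nb.2 ⟨hcL.1, hh.symm⟩)
      · rcases Finset.mem_insert.1 h with h | h
        · obtain ⟨h1, h2⟩ := hmem c (hCsub hc)
          rw [h] at hct
          exact hnadj c h1 h2 hct.symm
        · rw [hφ2T t h] at hh
          exact hcL.2.2 (Finset.mem_biUnion.2 ⟨t, mem_nb.2 ⟨h, hct⟩,
            mem_nb.2 ⟨hcL.1, hh.symm⟩⟩))
  set φ₃ : V → W := fun v => if v ∈ C then ψ v else φ₂ v with hφ₃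
  have e1 : ∀ t ∈ insert u (insert s T), φ₃ t = φ₂ t := by
    intro t ht
    simp only [hφ₃, if_neg (hTC t ht)]
  have e2 : ∀ t ∈ C, φ₃ t = ψ t := by
    intro t ht
    simp only [hφ₃, if_pos ht]
  have hnb : ∀ v ∈ A \ (C ∪ insert u (insert s T)),
      nb G (insert u (insert s T)) v = nb G T v := by
    intro v hv
    have hv' := Finset.mem_sdiff.1 hv
    rw [Finset.mem_union, not_or] at hv'
    have hvA : v ∈ A \ insert u (insert s T) := Finset.mem_sdiff.2 ⟨hv'.1, hv'.2.2⟩
    rw [nb_insert_of_not_adj, nb_insert_of_not_adj]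
    · obtain ⟨h1, h2⟩ := hmem v hvA
      exact hnadj v h1 h2
    · intro h
      exact hv'.2.1 (mem_nb.2 ⟨hvA, h⟩)
  have hsub3 : A \ (C ∪ insert u (insert s T)) ⊆ A \ insert u (insert s T) :=
    Finset.sdiff_subset_sdiff (Finset.Subset.refl _) Finset.subset_union_right
  refine ⟨insert u (insert s T), C, φ₃, ?_⟩
  refine
    { T0T := st.T0T.trans ((Finset.subset_insert _ _).trans (Finset.subset_insert _ _))
      TA := ?_
      CA := hCsub
      good := hgood3
      φY := ?_
      φC := ?_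
      ag := ?_
      oth := ?_
      cnt := ?_ }
  · intro x hx
    rcases Finset.mem_insert.1 hx with h | h
    · rw [h]; exact huA
    · exact st.sub_insert h
  · intro t ht
    rw [e1 t ht]
    exact hval2 t ht
  · intro t ht
    rw [e2 t ht]
    exact hψI t ht
  · intro t ht
    rw [e1 t (Finset.mem_insert_of_mem (Finset.mem_insert_of_mem (st.T0T ht))),
      hφ2T t (st.T0T ht)]
    exact st.ag t ht
  · intro v hv
    rw [hnb v hv]
    exact hoth v (hsub3 hv)
  · have h := st.rest_sub (R := A \ (C ∪ insert u (insert s T)))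
      (T' := insert u (insert s T)) (fun v hv => hmem2 v (hsub3 hv)) hnb
    have h3 : C.card = 0 ∨ C.card = 1 ∨ C.card = 2 := by omega
    rcases h3 with h3 | h3 | h3
    · left
      exact ⟨h3, by omega⟩
    · right; left
      exact ⟨h3, by omega⟩
    · right; right
      exact ⟨h3, by omega⟩

/-- One step of the walk. -/
theorem State.step [Nonempty W] (S : Setup G H A U I B T₀ φ₀ a m β Δ) (hm2 : 2 ≤ m)
    (st : State G H A U I T₀ φ₀ m T φ s j) :
    (∃ T' C φ', Outcome G H A U I T₀ φ₀ m T' C φ') ∨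
      ∃ T' φ' s', State G H A U I T₀ φ₀ m T' φ' s' (j + 1) := by
  by_cases hA : ∃ i ∈ I, ∀ t ∈ nb G T s, ¬ H.Adj (φ t) i
  · obtain ⟨i, hi, hit⟩ := hA
    exact Or.inl ⟨_, _, _, st.outcome_in hi hit⟩
  push Not at hA
  have hne : (freeHosts G H U T φ s).Nonempty := by
    rw [← Finset.card_pos]
    have h1 := st.freeHosts_card S
    have h2 := S.cardU
    have h3 := st.rest
    have h4 := S.hm
    omega
  rcases (nb G (A \ insert s T) s).eq_empty_or_nonempty with h0 | ⟨u, hu⟩
  · obtain ⟨z, hz⟩ := hne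
    exact Or.inl ⟨_, _, _, State.outcome_closed hA st hz h0⟩
  · have hu' : nb G (A \ insert s T) s = {u} := by
      refine Finset.eq_singleton_iff_unique_mem.2 ⟨hu, fun x hx => ?_⟩
      exact Finset.card_le_one.1 (st.out_le S) x hx u hu
    have huA := (mem_nb.1 hu).1
    rw [sdiff_insert_eq] at huA
    have hu1 := (st.oth u (Finset.mem_of_mem_erase huA) (Finset.ne_of_mem_erase huA)).2
    rcases (nb G T u).eq_empty_or_nonempty with hu0 | hu0
    · by_cases hc : ∃ z ∈ freeHosts G H U T φ s, ∃ i ∈ I, ¬ H.Adj z i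
      · obtain ⟨z, hz, i, hi, hzi⟩ := hc
        exact Or.inl ⟨_, _, _, State.outcome_c hA st hz hu' hu0 hi hzi⟩
      · push Not at hc
        exact Or.inl (State.outcome_d S hA st hm2 hc hu' hu0)
    · obtain ⟨z, hz⟩ := hne
      have := Finset.card_pos.2 hu0
      exact Or.inr ⟨_, _, _, State.next hA st hz hu' (by omega)⟩

/-- The walk ends. -/
theorem State.walk [Nonempty W] (S : Setup G H A U I B T₀ φ₀ a m β Δ) (hm2 : 2 ≤ m) :
    ∀ (n : ℕ) (T : Finset V) (φ : V → W) (s : V) (j : ℕ), m ≤ j + n →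
      State G H A U I T₀ φ₀ m T φ s j → ∃ T' C φ', Outcome G H A U I T₀ φ₀ m T' C φ' := by
  intro n
  induction n with
  | zero =>
    intro T φ s j hj st
    rcases st.step S hm2 with h | ⟨T', φ', s', st'⟩
    · exact h
    · have := st'.rest
      omega
  | succ n ih =>
    intro T φ s j hj st
    rcases st.step S hm2 with h | ⟨T', φ', s', st'⟩
    · exact h
    · exact ih T' φ' s' (j + 1) (by omega) st'

end Pool.Agent.H44.Cub
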