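import Pool.Agent.H44.Cub.Growth
import Pool.Agent.H44.Cub.Num

set_option autoImplicit false
set_option linter.unusedSectionVars false

/-!
# The walk outside the maximum independent set
-/

namespace Pool.Agent.H44.Cub

open Finset

variable {V W : Type*} [DecidableEq V] [DecidableEq W] {G : SimpleGraph V} {H : SimpleGraph W}
  [DecidableRel G.Adj] [DecidableRel H.Adj]

/-- The data fixed in the second part of the proof: `I` is an independent set of `a ≥ Δ` hosts,
`B` the `β` hosts outside `I` with most neighbours in `I`, and `φ₀` a placement of `T₀` outside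
`I` and `B`. -/
structure Setup (G : SimpleGraph V) (H : SimpleGraph W) [DecidableRel G.Adj] [DecidableRel H.Adj]
    (A : Finset V) (U I B : Finset W) (T₀ : Finset V) (φ₀ : V → W) (a m β Δ : ℕ) : Prop where
  deg : ∀ (v : V) (A : Finset V), (nb G A v).card ≤ 3
  hmax : ∀ y ∈ U, (nb H U y).card ≤ Δ
  ha : Δ ≤ a
  IU : I ⊆ U
  indI : Ind H I
  cardI : I.card = a
  cardA : A.card = a + m
  T0A : T₀ ⊆ A
  cardT0 : T₀.card = m
  good0 : Good G H T₀ φ₀
  BY : B ⊆ U \ I
  cardB : B.card = β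
  φ0Y : ∀ t ∈ T₀, φ₀ t ∈ (U \ I) \ B
  top : ∀ b ∈ B, ∀ y ∈ (U \ I) \ B, (nb H I y).card ≤ (nb H I b).card
  cardU : 5 * (a + m) ≤ 2 * U.card
  hm : 1 ≤ m
  ham : 3 * m ≤ a
  ha4 : 4 ≤ a
  hβ : 3 * a ≤ 2 * β + 1 ∨ (m = 7 ∧ 3 * a ≤ 2 * β + 3 ∧ 23 ≤ a)

variable {A : Finset V} {U I B : Finset W} {T₀ : Finset V} {φ₀ : V → W} {a m β Δ : ℕ}

theorem Setup.sum_le (S : Setup G H A U I B T₀ φ₀ a m β Δ) :
    ∑ y ∈ U \ I, (nb H I y).card ≤ a * Δ := by
  rw [sum_nb_comm]
  calc ∑ i ∈ I, (nb H (U \ I) i).card ≤ ∑ _i ∈ I, Δ := by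
        refine Finset.sum_le_sum fun i hi => ?_
        exact (Finset.card_le_card (nb_mono Finset.sdiff_subset)).trans (S.hmax i (S.IU hi))
    _ = a * Δ := by rw [Finset.sum_const, smul_eq_mul, S.cardI]

theorem Setup.disj_le (S : Setup G H A U I B T₀ φ₀ a m β Δ) {E O D : Finset W}
    (hE : E ⊆ U \ I) (hO : O ⊆ U \ I) (hD : D ⊆ U \ I) (hEO : Disjoint E O) (hED : Disjoint E D)
    (hOD : Disjoint O D) {c : ℕ} (hc : ∀ y ∈ E, c ≤ (nb H I y).card)
    (hOa : ∀ y ∈ O, a ≤ (nb H I y).card) (hDa : a ≤ ∑ y ∈ D, (nb H I y).card) :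
    E.card * c + O.card * a + a ≤ a * Δ := by
  have h1 : E.card * c ≤ ∑ y ∈ E, (nb H I y).card := by
    rw [← smul_eq_mul]
    exact Finset.card_nsmul_le_sum _ _ _ hc
  have h2 : O.card * a ≤ ∑ y ∈ O, (nb H I y).card := by
    rw [← smul_eq_mul]
    exact Finset.card_nsmul_le_sum _ _ _ hOa
  have h3 : ∑ y ∈ E ∪ O ∪ D, (nb H I y).card ≤ ∑ y ∈ U \ I, (nb H I y).card :=
    Finset.sum_le_sum_of_subset (Finset.union_subset (Finset.union_subset hE hO) hD)
  have h4 : Disjoint (E ∪ O) D := Finset.disjoint_union_left.2 ⟨hED, hOD⟩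
  rw [Finset.sum_union h4, Finset.sum_union hEO] at h3
  have h5 := S.sum_le
  omega

theorem Setup.rank (S : Setup G H A U I B T₀ φ₀ a m β Δ) {P : Finset V} (hP : P ⊆ T₀)
    (hne : P.Nonempty) {μ : ℕ} (hμ : ∀ t ∈ P, μ ≤ (nb H I (φ₀ t)).card) :
    (β + P.card) * μ ≤ a * Δ := by
  have hinj : (P.image φ₀).card = P.card := by
    refine Finset.card_image_of_injOn ?_
    intro x hx y hy hxy
    exact S.good0.1 x (hP hx) y (hP hy) hxy
  have hsub : P.image φ₀ ⊆ (U \ I) \ B := by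
    intro y hy
    obtain ⟨t, ht, rfl⟩ := Finset.mem_image.1 hy
    exact S.φ0Y t (hP ht)
  have hdis : Disjoint B (P.image φ₀) := by
    rw [Finset.disjoint_left]
    intro y hy hy'
    exact (Finset.mem_sdiff.1 (hsub hy')).2 hy
  have hcard : (B ∪ P.image φ₀).card = β + P.card := by
    rw [Finset.card_union_of_disjoint hdis, S.cardB, hinj]
  have hall : ∀ y ∈ B ∪ P.image φ₀, μ ≤ (nb H I y).card := by
    intro y hy
    rcases Finset.mem_union.1 hy with hy | hy
    · obtain ⟨t, ht⟩ := hne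
      exact (hμ t ht).trans (S.top y hy _ (S.φ0Y t (hP ht)))
    · obtain ⟨t, ht, rfl⟩ := Finset.mem_image.1 hy
      exact hμ t ht
  rw [← hcard, ← smul_eq_mul]
  refine (Finset.card_nsmul_le_sum _ _ _ hall).trans ((Finset.sum_le_sum_of_subset ?_).trans
    S.sum_le)
  exact Finset.union_subset S.BY (hsub.trans Finset.sdiff_subset)

/-- A stage of the walk: `s` is the only vertex outside `T` with two neighbours in `T`. -/
structure State (G : SimpleGraph V) (H : SimpleGraph W) [DecidableRel G.Adj]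
    (A : Finset V) (U I : Finset W) (T₀ : Finset V) (φ₀ : V → W) (m : ℕ)
    (T : Finset V) (φ : V → W) (s : V) (j : ℕ) : Prop where
  T0T : T₀ ⊆ T
  TA : T ⊆ A
  cardT : T.card = m + j
  cut_le : cut G A T + j ≤ m + 2
  good : Good G H T φ
  φY : ∀ t ∈ T, φ t ∈ U \ I
  ag : ∀ t ∈ T₀, φ t = φ₀ t
  hs : s ∈ A \ T
  s2 : (nb G T s).card = 2
  oth : ∀ v ∈ A \ T, v ≠ s → nb G T v ⊆ T₀ ∧ (nb G T v).card ≤ 1

/-- The result of the walk: `T'` is placed outside `I` and `C` inside `I`. -/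
structure Outcome (G : SimpleGraph V) (H : SimpleGraph W) [DecidableRel G.Adj]
    (A : Finset V) (U I : Finset W) (T₀ : Finset V) (φ₀ : V → W) (m : ℕ)
    (T C : Finset V) (φ : V → W) : Prop where
  T0T : T₀ ⊆ T
  TA : T ⊆ A
  CA : C ⊆ A \ T
  good : Good G H (C ∪ T) φ
  φY : ∀ t ∈ T, φ t ∈ U \ I
  φC : ∀ t ∈ C, φ t ∈ I
  ag : ∀ t ∈ T₀, φ t = φ₀ t
  oth : ∀ v ∈ A \ (C ∪ T), nb G T v ⊆ T₀ ∧ (nb G T v).card ≤ 1
  cnt : (C.card = 0 ∧ ∑ v ∈ A \ (C ∪ T), (nb G T v).card ≤ m + 2) ∨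
    (C.card = 1 ∧ ∑ v ∈ A \ (C ∪ T), (nb G T v).card ≤ m) ∨
    (C.card = 2 ∧ ∑ v ∈ A \ (C ∪ T), (nb G T v).card + 1 ≤ m)

variable {T : Finset V} {φ : V → W} {s : V} {j : ℕ}

theorem State.rest (st : State G H A U I T₀ φ₀ m T φ s j) :
    ∑ v ∈ (A \ T).erase s, (nb G T v).card + j ≤ m := by
  have h1 := st.cut_le
  have h2 : cut G A T = (nb G T s).card + ∑ v ∈ (A \ T).erase s, (nb G T v).card :=
    (Finset.add_sum_erase (A \ T) (fun v => (nb G T v).card) st.hs).symm
  have h3 := st.s2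
  omega

theorem State.rest_sub (st : State G H A U I T₀ φ₀ m T φ s j) {R T' : Finset V}
    (hR : R ⊆ (A \ T).erase s) (hT' : ∀ v ∈ R, nb G T' v = nb G T v) :
    ∑ v ∈ R, (nb G T' v).card + j ≤ m := by
  have h1 : ∑ v ∈ R, (nb G T' v).card ≤ ∑ v ∈ (A \ T).erase s, (nb G T v).card := by
    rw [Finset.sum_congr rfl fun v hv => by rw [hT' v hv]]
    exact Finset.sum_le_sum_of_subset hR
  have h2 := st.rest
  omega

theorem nb_insert_of_not_adj {T : Finset V} {s v : V} (h : ¬ G.Adj s v) :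
    nb G (insert s T) v = nb G T v := by
  unfold nb
  rw [Finset.filter_insert, if_neg (fun hh => h hh.symm)]

theorem sdiff_insert_eq {A T : Finset V} {s : V} : A \ insert s T = (A \ T).erase s := by
  ext x
  simp only [Finset.mem_sdiff, Finset.mem_insert, not_or, Finset.mem_erase]
  tauto

/-- The hosts free for the exceptional vertex. -/
def freeHosts (G : SimpleGraph V) (H : SimpleGraph W) [DecidableRel G.Adj] [DecidableRel H.Adj]
    (U : Finset W) (T : Finset V) (φ : V → W) (s : V) : Finset W :=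
  (U \ T.image φ) \ (nb G T s).biUnion (fun t => nb H U (φ t))

theorem mem_freeHosts {z : W} : z ∈ freeHosts G H U T φ s ↔
    z ∈ U ∧ (∀ t ∈ T, φ t ≠ z) ∧ ∀ t ∈ nb G T s, ¬ H.Adj (φ t) z := by
  unfold freeHosts
  rw [Finset.mem_sdiff, Finset.mem_sdiff]
  constructor
  · rintro ⟨⟨h1, h2⟩, h3⟩
    refine ⟨h1, fun t ht he => h2 (Finset.mem_image.2 ⟨t, ht, he⟩), fun t ht hh => h3 ?_⟩
    exact Finset.mem_biUnion.2 ⟨t, ht, mem_nb.2 ⟨h1, hh⟩⟩
  · rintro ⟨h1, h2, h3⟩
    refine ⟨⟨h1, fun h => ?_⟩, fun h => ?_⟩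
    · obtain ⟨t, ht, he⟩ := Finset.mem_image.1 h
      exact h2 t ht he
    · obtain ⟨t, ht, he⟩ := Finset.mem_biUnion.1 h
      exact h3 t ht (mem_nb.1 he).2

theorem State.freeHosts_card (S : Setup G H A U I B T₀ φ₀ a m β Δ)
    (st : State G H A U I T₀ φ₀ m T φ s j) :
    U.card ≤ (freeHosts G H U T φ s).card + (m + j) + 2 * a := by
  have h1 : (T.image φ).card ≤ m + j := Finset.card_image_le.trans (le_of_eq st.cardT)
  have h2 : ((nb G T s).biUnion (fun t => nb H U (φ t))).card ≤ 2 * a := by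
    refine Finset.card_biUnion_le.trans ?_
    calc ∑ t ∈ nb G T s, (nb H U (φ t)).card ≤ ∑ _t ∈ nb G T s, a := by
          refine Finset.sum_le_sum fun t ht => ?_
          have h3 := Finset.mem_sdiff.1 (st.φY t (nb_subset ht))
          exact (S.hmax _ h3.1).trans S.ha
      _ = 2 * a := by rw [Finset.sum_const, smul_eq_mul, st.s2]
  have h3 : U ⊆ (freeHosts G H U T φ s ∪ T.image φ) ∪
      (nb G T s).biUnion (fun t => nb H U (φ t)) := by
    intro y hy
    by_cases h4 : y ∈ (nb G T s).biUnion (fun t => nb H U (φ t))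
    · exact Finset.mem_union_right _ h4
    · by_cases h5 : y ∈ T.image φ
      · exact Finset.mem_union_left _ (Finset.mem_union_right _ h5)
      · exact Finset.mem_union_left _ (Finset.mem_union_left _
          (Finset.mem_sdiff.2 ⟨Finset.mem_sdiff.2 ⟨hy, h5⟩, h4⟩))
  have h4 := Finset.card_le_card h3
  have h5 := Finset.card_union_le (freeHosts G H U T φ s ∪ T.image φ)
    ((nb G T s).biUnion (fun t => nb H U (φ t)))
  have h6 := Finset.card_union_le (freeHosts G H U T φ s) (T.image φ)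
  omega

/-- The exceptional vertex goes into the independent set. -/
theorem State.outcome_in (st : State G H A U I T₀ φ₀ m T φ s j) {i : W} (hi : i ∈ I)
    (hit : ∀ t ∈ nb G T s, ¬ H.Adj (φ t) i) :
    Outcome G H A U I T₀ φ₀ m T {s} (Function.update φ s i) := by
  have hsT : s ∉ T := (Finset.mem_sdiff.1 st.hs).2
  have hrest := st.rest
  have heq : ({s} : Finset V) ∪ T = insert s T := (Finset.insert_eq s T).symm
  refine
    { T0T := st.T0T
      TA := st.TA
      CA := Finset.singleton_subset_iff.2 st.hs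
      good := ?_
      φY := ?_
      φC := ?_
      ag := ?_
      oth := ?_
      cnt := ?_ }
  · rw [heq]
    refine st.good.insert hsT ?_ ?_
    · intro u hu he
      exact (Finset.mem_sdiff.1 (st.φY u hu)).2 (he ▸ hi)
    · intro u hu hsu
      exact hit u (mem_nb.2 ⟨hu, hsu⟩)
  · intro t ht
    rw [upd_of_mem hsT ht]
    exact st.φY t ht
  · intro t ht
    rw [Finset.mem_singleton.1 ht, upd_self]
    exact hi
  · intro t ht
    rw [upd_of_mem hsT (st.T0T ht)]
    exact st.ag t ht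
  · intro v hv
    rw [heq, sdiff_insert_eq] at hv
    exact st.oth v (Finset.mem_of_mem_erase hv) (Finset.ne_of_mem_erase hv)
  · right; left
    refine ⟨Finset.card_singleton s, ?_⟩
    rw [heq, sdiff_insert_eq]
    omega

/-- Placing the exceptional vertex outside the independent set. -/
theorem State.good_out (st : State G H A U I T₀ φ₀ m T φ s j) {z : W}
    (hz : z ∈ freeHosts G H U T φ s) : Good G H (insert s T) (Function.update φ s z) := by
  have hsT : s ∉ T := (Finset.mem_sdiff.1 st.hs).2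
  have hz' := mem_freeHosts.1 hz
  exact st.good.insert hsT (fun u hu => hz'.2.1 u hu)
    (fun u hu hsu => hz'.2.2 u (mem_nb.2 ⟨hu, hsu⟩))

end Pool.Agent.H44.Cub
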